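import Mathlib
open Finset
namespace TWK551

structure Conf (V : Type*) [Fintype V] [DecidableEq V] where
  s : V → V → ℝ
  pm : ∀ u x, s u x = 1 ∨ s u x = -1
  symm : ∀ u x, s u x = s x u
  dg : ∀ x, s x x = -1
  K : ℝ
  hK : 3 ≤ K
  cor_le : ∀ x y, x ≠ y → ∑ u, s u x * s u y ≤ K
  cor_ge : ∀ x y, x ≠ y → -K ≤ ∑ u, s u x * s u y

variable {V : Type*} [Fintype V] [DecidableEq V]

noncomputable def gS (C : Conf V) (x y u v : V) : ℝ :=
  (47 + 7 * (C.s u x * C.s u y) + 7 * (C.s v x * C.s v y)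
    - (C.s u x * C.s u y) * (C.s v x * C.s v y)
    - 3 * ((C.s u x + C.s u y) * (C.s v x + C.s v y))) / 48

noncomputable def gH (C : Conf V) (x y u v : V) : ℝ :=
  1 - (1 + C.s u x * C.s u y + C.s v x * C.s v y
    + (C.s u x * C.s u y) * (C.s v x * C.s v y)
    + (C.s u x + C.s u y) * (C.s v x + C.s v y)) / 24

lemma sq_one (C : Conf V) (u x : V) : C.s u x * C.s u x = 1 := by
  rcases C.pm u x with h | h <;> rw [h] <;> norm_num

lemma gS_bounds (C : Conf V) (x y u v : V) : 2/3 ≤ gS C x y u v ∧ gS C x y u v ≤ 3/2 := by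
  unfold gS
  rcases C.pm u x with h1 | h1 <;> rcases C.pm u y with h2 | h2 <;>
  rcases C.pm v x with h3 | h3 <;> rcases C.pm v y with h4 | h4 <;>
  rw [h1, h2, h3, h4] <;> norm_num

lemma gH_bounds (C : Conf V) (x y u v : V) : 2/3 ≤ gH C x y u v ∧ gH C x y u v ≤ 1 := by
  unfold gH
  rcases C.pm u x with h1 | h1 <;> rcases C.pm u y with h2 | h2 <;>
  rcases C.pm v x with h3 | h3 <;> rcases C.pm v y with h4 | h4 <;>
  rw [h1, h2, h3, h4] <;> norm_num

/-- abbreviation for the order -/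
noncomputable abbrev nn (V : Type*) [Fintype V] : ℝ := (Fintype.card V : ℝ)

lemma sum_gS (C : Conf V) {x y : V} (hxy : x ≠ y) :
    ∑ u, ∑ v, gS C x y u v ≤ 47/48 * (nn V)^2 + C.K * nn V := by
  set c := ∑ u, C.s u x * C.s u y with hc
  set r := ∑ u, C.s u x + ∑ u, C.s u y with hr
  have h1 : ∀ u, ∑ v, gS C x y u v = (47 * nn V + 7 * nn V * (C.s u x * C.s u y) + 7 * c
      - (C.s u x * C.s u y) * c - 3 * ((C.s u x + C.s u y) * r)) / 48 := by
    intro u
    unfold gS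
    simp only [← Finset.sum_div, Finset.sum_sub_distrib, Finset.sum_add_distrib, ← Finset.mul_sum,
      ← Finset.sum_mul, Finset.sum_const, Finset.card_univ, nsmul_eq_mul, ← hc, ← hr]
    ring
  have h2 : ∑ u, ∑ v, gS C x y u v = (47 * (nn V)^2 + 14 * nn V * c - c^2 - 3 * r^2) / 48 := by
    rw [Finset.sum_congr rfl (fun u _ => h1 u)]
    simp only [← Finset.sum_div, Finset.sum_sub_distrib, Finset.sum_add_distrib, ← Finset.mul_sum,
      ← Finset.sum_mul, Finset.sum_const, Finset.card_univ, nsmul_eq_mul, ← hc, ← hr]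
    ring
  rw [h2]
  have hc1 : c ≤ C.K := C.cor_le x y hxy
  have hn : 0 ≤ nn V := Nat.cast_nonneg _
  have hK := C.hK
  have h3 := mul_nonneg hn (sub_nonneg.2 hc1)
  have h4 : 0 ≤ C.K * nn V := by positivity
  nlinarith [sq_nonneg c, sq_nonneg r]

lemma sum_gH (C : Conf V) {x y : V} (hxy : x ≠ y) :
    ∑ u, ∑ v, gH C x y u v ≤ 47/48 * (nn V)^2 + C.K * nn V := by
  set c := ∑ u, C.s u x * C.s u y with hc
  set r := ∑ u, C.s u x + ∑ u, C.s u y with hr
  have h1 : ∀ u, ∑ v, gH C x y u v = nn V - (nn V + nn V * (C.s u x * C.s u y) + c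
      + (C.s u x * C.s u y) * c + ((C.s u x + C.s u y) * r)) / 24 := by
    intro u
    unfold gH
    simp only [← Finset.sum_div, Finset.sum_sub_distrib, Finset.sum_add_distrib, ← Finset.mul_sum,
      ← Finset.sum_mul, Finset.sum_const, Finset.card_univ, nsmul_eq_mul, ← hc, ← hr]
    ring
  have h2 : ∑ u, ∑ v, gH C x y u v = (nn V)^2 - ((nn V)^2 + 2 * nn V * c + c^2 + r^2) / 24 := by
    rw [Finset.sum_congr rfl (fun u _ => h1 u)]
    simp only [← Finset.sum_div, Finset.sum_sub_distrib, Finset.sum_add_distrib, ← Finset.mul_sum,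
      ← Finset.sum_mul, Finset.sum_const, Finset.card_univ, nsmul_eq_mul, ← hc, ← hr]
    ring
  rw [h2]
  have hc1 : -C.K ≤ c := C.cor_ge x y hxy
  have hn : 0 ≤ nn V := Nat.cast_nonneg _
  have hK := C.hK
  have h3 := mul_nonneg hn (by linarith : (0:ℝ) ≤ c + C.K)
  have h4 : 0 ≤ C.K * nn V := by positivity
  nlinarith [sq_nonneg c, sq_nonneg r, sq_nonneg (nn V)]

lemma cor_abs (C : Conf V) (y y' : V) :
    |∑ u, C.s u y * C.s u y'| ≤ (if y = y' then nn V else 0) + C.K := by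
  have hK := C.hK
  by_cases h : y = y'
  · subst h
    simp only [sq_one, Finset.sum_const, Finset.card_univ, nsmul_eq_mul, mul_one, if_true]
    rw [abs_of_nonneg (Nat.cast_nonneg _)]; unfold nn; linarith
  · rw [if_neg h, abs_le]
    constructor
    · linarith [C.cor_ge y y' h]
    · linarith [C.cor_le y y' h]

lemma sq_sum_le (C : Conf V) (g : V → ℝ) (B : ℝ) (hB : 0 ≤ B) (hg : ∀ y, |g y| ≤ B) :
    ∑ u, (∑ y, g y * C.s u y)^2 ≤ (1 + C.K) * (nn V)^2 * B^2 := by
  have hK := C.hK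
  have h1 : ∑ u, (∑ y, g y * C.s u y)^2 = ∑ y, ∑ y', g y * g y' * ∑ u, C.s u y * C.s u y' := by
    have : ∀ u, (∑ y, g y * C.s u y)^2 = ∑ y, ∑ y', g y * g y' * (C.s u y * C.s u y') := by
      intro u
      rw [sq, Finset.sum_mul_sum]
      refine Finset.sum_congr rfl fun y _ => Finset.sum_congr rfl fun y' _ => by ring
    rw [Finset.sum_congr rfl (fun u _ => this u), Finset.sum_comm]
    refine Finset.sum_congr rfl fun y _ => ?_
    rw [Finset.sum_comm]
    refine Finset.sum_congr rfl fun y' _ => ?_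
    rw [Finset.mul_sum]
  rw [h1]
  have h2 : ∀ y y', g y * g y' * ∑ u, C.s u y * C.s u y' ≤
      B^2 * ((if y = y' then nn V else 0) + C.K) := by
    intro y y'
    calc g y * g y' * ∑ u, C.s u y * C.s u y' ≤ |g y * g y' * ∑ u, C.s u y * C.s u y'| := le_abs_self _
      _ = |g y| * |g y'| * |∑ u, C.s u y * C.s u y'| := by rw [abs_mul, abs_mul]
      _ ≤ B * B * ((if y = y' then nn V else 0) + C.K) := by
          apply mul_le_mul _ (cor_abs C y y') (abs_nonneg _) (mul_nonneg hB hB)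
          exact mul_le_mul (hg y) (hg y') (abs_nonneg _) hB
      _ = _ := by ring
  calc ∑ y, ∑ y', g y * g y' * ∑ u, C.s u y * C.s u y'
      ≤ ∑ y : V, ∑ y' : V, B^2 * ((if y = y' then nn V else 0) + C.K) :=
        Finset.sum_le_sum fun y _ => Finset.sum_le_sum fun y' _ => h2 y y'
    _ = (1 + C.K) * (nn V)^2 * B^2 := by
        simp only [← Finset.mul_sum, Finset.sum_add_distrib, Finset.sum_ite_eq, Finset.mem_univ, if_true,
          Finset.sum_const, Finset.card_univ, nsmul_eq_mul]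
        ring

lemma abs_sum_le (C : Conf V) (g : V → ℝ) (B ε : ℝ) (hB : 0 ≤ B) (hε : 0 < ε)
    (hg : ∀ y, |g y| ≤ B) (hn : (1 + C.K) * B^2 ≤ ε^2 * nn V) :
    ∑ u, |∑ y, g y * C.s u y| ≤ ε * (nn V)^2 := by
  have hn0 : 0 ≤ nn V := Nat.cast_nonneg _
  rcases hn0.eq_or_lt with h0 | hpos
  · have : Fintype.card V = 0 := by
      have := h0.symm; unfold nn at this; exact_mod_cast this
    haveI := Fintype.card_eq_zero_iff.1 this
    simp [nn]
  have h1 : ∀ u, |∑ y, g y * C.s u y| ≤ (∑ y, g y * C.s u y)^2 / (2 * ε * nn V) + ε * nn V / 2 := by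
    intro u
    set z := |∑ y, g y * C.s u y| with hz
    have hzz : (∑ y, g y * C.s u y)^2 = z^2 := by rw [hz, sq_abs]
    rw [hzz]
    have hk : 0 < ε * nn V := mul_pos hε hpos
    have : 0 ≤ (z - ε * nn V)^2 / (2 * ε * nn V) := by positivity
    have e : (z - ε * nn V)^2 / (2 * ε * nn V) = z^2/(2 * ε * nn V) + ε * nn V/2 - z := by
      field_simp
      ring
    linarith
  calc ∑ u, |∑ y, g y * C.s u y| ≤ ∑ u, ((∑ y, g y * C.s u y)^2 / (2 * ε * nn V) + ε * nn V / 2) :=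
        Finset.sum_le_sum fun u _ => h1 u
    _ = (∑ u, (∑ y, g y * C.s u y)^2) / (2 * ε * nn V) + nn V * (ε * nn V / 2) := by
        rw [Finset.sum_add_distrib, Finset.sum_div]; simp
    _ ≤ ((1 + C.K) * (nn V)^2 * B^2) / (2 * ε * nn V) + nn V * (ε * nn V / 2) := by
        gcongr
        exact sq_sum_le C g B hB hg
    _ ≤ ε * (nn V)^2 := by
        have : ((1 + C.K) * (nn V)^2 * B^2) / (2 * ε * nn V) ≤ ε * (nn V)^2 / 2 := by
          rw [div_le_iff₀ (by positivity)]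
          have : 0 ≤ (nn V)^2 := by positivity
          nlinarith [mul_le_mul_of_nonneg_left hn this]
        nlinarith

lemma abs_sum3 (C : Conf V) (K : V → V → V → ℝ) (B ε : ℝ) (hB : 0 ≤ B) (hε : 0 < ε)
    (hg : ∀ v x y, |K v x y| ≤ B) (hn : (1 + C.K) * B^2 ≤ ε^2 * nn V) :
    ∑ v, ∑ x, ∑ u, |∑ y, K v x y * C.s u y| ≤ ε * (nn V)^4 := by
  calc ∑ v, ∑ x, ∑ u, |∑ y, K v x y * C.s u y| ≤ ∑ v : V, ∑ x : V, ε * (nn V)^2 :=
        Finset.sum_le_sum fun v _ => Finset.sum_le_sum fun x _ =>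
          abs_sum_le C (K v x) B ε hB hε (hg v x) hn
    _ = ε * (nn V)^4 := by simp; ring

end TWK551
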