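import Pool.Agent.H551.tk.A
open Finset
namespace TWK551

variable {V : Type*} [Fintype V] [DecidableEq V]

lemma s_abs (C : Conf V) (u x : V) : |C.s u x| = 1 := by
  rcases C.pm u x with h | h <;> rw [h] <;> norm_num

lemma abs_mul_s (C : Conf V) (u x : V) (r : ℝ) : |r * C.s u x| = |r| := by
  rw [abs_mul, s_abs, mul_one]

lemma G_lemma (C : Conf V) (K : V → V → V → ℝ) (M : V → V → ℝ) (B ε : ℝ) (hB : 0 ≤ B) (hε : 0 < ε)
    (hg : ∀ v x y, |K v x y| ≤ B) (hn : (1 + C.K) * B^2 ≤ ε^2 * nn V)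
    (hM : ∀ u v, |M u v| ≤ ∑ x, |∑ y, K v x y * C.s u y|) :
    ∑ u, ∑ v, |M u v| ≤ ε * (nn V)^4 := by
  rw [Finset.sum_comm]
  refine le_trans ?_ (abs_sum3 C K B ε hB hε hg hn)
  refine Finset.sum_le_sum fun v _ => ?_
  rw [Finset.sum_comm (s := univ) (t := univ) (f := fun x u => |∑ y, K v x y * C.s u y|)]
  exact Finset.sum_le_sum fun u _ => hM u v

lemma abs_sum_mul_le (b c : V → ℝ) (hb : ∀ x, |b x| ≤ 1) : |∑ x, b x * c x| ≤ ∑ x, |c x| := by
  refine le_trans (Finset.abs_sum_le_sum_abs _ _) (Finset.sum_le_sum fun x _ => ?_)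
  rw [abs_mul]
  calc |b x| * |c x| ≤ 1 * |c x| := mul_le_mul_of_nonneg_right (hb x) (abs_nonneg _)
    _ = |c x| := one_mul _

lemma quasi (C : Conf V) (W : V → V → ℝ) (B ε : ℝ) (hB : 0 ≤ B) (hε : 0 < ε)
    (hW : ∀ x y, |W x y| ≤ B) (hn : (1 + C.K) * B^2 ≤ ε^2 * nn V) :
    ∑ u, ∑ v, |∑ x, ∑ y, W x y * (gS C x y u v - 47/48)| ≤ ε * (nn V)^4 := by
  set M1 : V → V → ℝ := fun u v => ∑ x, ∑ y, W x y * (C.s u x * C.s u y) with hM1
  set M3 : V → V → ℝ := fun u v => ∑ x, ∑ y, W x y * ((C.s u x * C.s u y) * (C.s v x * C.s v y)) with hM3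
  set M4 : V → V → ℝ := fun u v => ∑ x, ∑ y, W x y * (C.s u x * C.s v x) with hM4
  set M5 : V → V → ℝ := fun u v => ∑ x, ∑ y, W x y * (C.s u x * C.s v y) with hM5
  set M6 : V → V → ℝ := fun u v => ∑ x, ∑ y, W x y * (C.s u y * C.s v x) with hM6
  set M7 : V → V → ℝ := fun u v => ∑ x, ∑ y, W x y * (C.s u y * C.s v y) with hM7
  have e0 : ∀ u v, ∑ x, ∑ y, W x y * (gS C x y u v - 47/48) =
      (7 * M1 u v + 7 * M1 v u - M3 u v - 3 * (M4 u v + M5 u v + M6 u v + M7 u v)) / 48 := by
    intro u v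
    simp only [hM1, hM3, hM4, hM5, hM6, hM7, Finset.mul_sum, ← Finset.sum_add_distrib,
      ← Finset.sum_sub_distrib, Finset.sum_div]
    refine Finset.sum_congr rfl fun x _ => Finset.sum_congr rfl fun y _ => ?_
    unfold gS; ring
  have b1 : ∑ u, ∑ v, |M1 u v| ≤ ε * (nn V)^4 := by
    refine G_lemma C (fun v x y => W x y) M1 B ε hB hε (fun v x y => hW x y) hn ?_
    intro u v
    have : M1 u v = ∑ x, C.s u x * ∑ y, W x y * C.s u y := by
      simp only [hM1, Finset.mul_sum]
      refine Finset.sum_congr rfl fun x _ => Finset.sum_congr rfl fun y _ => by ring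
    rw [this]
    exact abs_sum_mul_le _ _ (fun x => (s_abs C u x).le)
  have b1' : ∑ u, ∑ v, |M1 v u| ≤ ε * (nn V)^4 := by rw [Finset.sum_comm]; exact b1
  have b3 : ∑ u, ∑ v, |M3 u v| ≤ ε * (nn V)^4 := by
    refine G_lemma C (fun v x y => W x y * C.s v y) M3 B ε hB hε (fun v x y => by rw [abs_mul_s]; exact hW x y) hn ?_
    intro u v
    have : M3 u v = ∑ x, (C.s u x * C.s v x) * ∑ y, (W x y * C.s v y) * C.s u y := by
      simp only [hM3, Finset.mul_sum]
      refine Finset.sum_congr rfl fun x _ => Finset.sum_congr rfl fun y _ => by ring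
    rw [this]
    exact abs_sum_mul_le _ _ (fun x => by rw [abs_mul_s, s_abs])
  have b4 : ∑ u, ∑ v, |M4 u v| ≤ ε * (nn V)^4 := by
    refine G_lemma C (fun v y x => W x y * C.s v x) M4 B ε hB hε (fun v x y => by rw [abs_mul_s]; exact hW y x) hn ?_
    intro u v
    have : M4 u v = ∑ y, ∑ x, (W x y * C.s v x) * C.s u x := by
      simp only [hM4]
      rw [Finset.sum_comm]
      refine Finset.sum_congr rfl fun x _ => Finset.sum_congr rfl fun y _ => by ring
    rw [this]
    exact Finset.abs_sum_le_sum_abs _ _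
  have b5 : ∑ u, ∑ v, |M5 u v| ≤ ε * (nn V)^4 := by
    refine G_lemma C (fun v y x => W x y) M5 B ε hB hε (fun v x y => hW y x) hn ?_
    intro u v
    have : M5 u v = ∑ y, C.s v y * ∑ x, W x y * C.s u x := by
      simp only [hM5, Finset.mul_sum]
      rw [Finset.sum_comm]
      refine Finset.sum_congr rfl fun x _ => Finset.sum_congr rfl fun y _ => by ring
    rw [this]
    exact abs_sum_mul_le _ _ (fun x => (s_abs C v x).le)
  have b6 : ∑ u, ∑ v, |M6 u v| ≤ ε * (nn V)^4 := by
    refine G_lemma C (fun v x y => W x y) M6 B ε hB hε (fun v x y => hW x y) hn ?_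
    intro u v
    have : M6 u v = ∑ x, C.s v x * ∑ y, W x y * C.s u y := by
      simp only [hM6, Finset.mul_sum]
      refine Finset.sum_congr rfl fun x _ => Finset.sum_congr rfl fun y _ => by ring
    rw [this]
    exact abs_sum_mul_le _ _ (fun x => (s_abs C v x).le)
  have b7 : ∑ u, ∑ v, |M7 u v| ≤ ε * (nn V)^4 := by
    refine G_lemma C (fun v x y => W x y * C.s v y) M7 B ε hB hε (fun v x y => by rw [abs_mul_s]; exact hW x y) hn ?_
    intro u v
    have : M7 u v = ∑ x, ∑ y, (W x y * C.s v y) * C.s u y := by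
      simp only [hM7]
      refine Finset.sum_congr rfl fun x _ => Finset.sum_congr rfl fun y _ => by ring
    rw [this]
    exact Finset.abs_sum_le_sum_abs _ _
  have hpt : ∀ u v, |∑ x, ∑ y, W x y * (gS C x y u v - 47/48)| ≤
      (7 * |M1 u v| + 7 * |M1 v u| + |M3 u v| + 3 * |M4 u v| + 3 * |M5 u v| + 3 * |M6 u v| + 3 * |M7 u v|) / 48 := by
    intro u v
    rw [e0 u v, abs_div, abs_of_pos (by norm_num : (0:ℝ) < 48)]
    apply div_le_div_of_nonneg_right _ (by norm_num)
    rw [abs_le]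
    constructor
    · have := neg_abs_le (M1 u v); have := neg_abs_le (M1 v u); have := le_abs_self (M3 u v)
      have := le_abs_self (M4 u v); have := le_abs_self (M5 u v); have := le_abs_self (M6 u v)
      have := le_abs_self (M7 u v)
      linarith
    · have := le_abs_self (M1 u v); have := le_abs_self (M1 v u); have := neg_abs_le (M3 u v)
      have := neg_abs_le (M4 u v); have := neg_abs_le (M5 u v); have := neg_abs_le (M6 u v)
      have := neg_abs_le (M7 u v)
      linarith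
  refine le_trans (Finset.sum_le_sum fun u _ => Finset.sum_le_sum fun v _ => hpt u v) ?_
  simp only [← Finset.sum_div, Finset.sum_add_distrib, ← Finset.mul_sum]
  have : 0 ≤ ε * (nn V)^4 := by positivity
  rw [div_le_iff₀ (by norm_num)]
  linarith

noncomputable def nh (C : Conf V) (x y u v : V) : ℝ :=
  1 - (1 + C.s u x * C.s u y + C.s v x * C.s v y
    + (C.s u x * C.s u y) * (C.s v x * C.s v y)
    + (C.s u x + C.s u y) * (C.s v x + C.s v y)) / 8

noncomputable def fR (C : Conf V) (x y u v : V) : ℝ :=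
  nh C x y u v - (1 - C.s u x * C.s u y)/2 - (1 - C.s v x * C.s v y)/2

noncomputable def S (C : Conf V) (L : List (V × V)) (x y : V) : ℝ :=
  (L.map (fun p => fR C x y p.1 p.2)).sum
noncomputable def W (C : Conf V) (L : List (V × V)) (x y : V) : ℝ :=
  (L.map (fun p => gS C x y p.1 p.2)).prod
noncomputable def Hc (C : Conf V) (L : List (V × V)) (x y : V) : ℝ :=
  (L.map (fun p => 1 - nh C x y p.1 p.2)).sum
noncomputable def H (C : Conf V) (L : List (V × V)) (x y : V) : ℝ :=
  (L.map (fun p => gH C x y p.1 p.2)).prod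

noncomputable def Phi (C : Conf V) (L : List (V × V)) : ℝ := ∑ x, ∑ y, if x = y then 0 else W C L x y
noncomputable def Phi2 (C : Conf V) (L : List (V × V)) : ℝ := ∑ x, ∑ y, if x = y then 0 else H C L x y
noncomputable def Psi (C : Conf V) (L : List (V × V)) : ℝ := (L.map (fun p => W C L p.1 p.2)).sum

def vs (L : List (V × V)) : List V := L.flatMap (fun p => [p.1, p.2])

@[simp] lemma vs_nil : vs ([] : List (V × V)) = [] := rfl
@[simp] lemma vs_cons (p : V × V) (L : List (V × V)) : vs (p :: L) = p.1 :: p.2 :: vs L := by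
  simp [vs]

lemma vs_length (L : List (V × V)) : (vs L).length = 2 * L.length := by
  induction L with
  | nil => rfl
  | cons p L ih => simp [ih]; ring

lemma W_cons (C : Conf V) (p : V × V) (L : List (V × V)) (x y : V) :
    W C (p :: L) x y = gS C x y p.1 p.2 * W C L x y := by simp [W]
lemma H_cons (C : Conf V) (p : V × V) (L : List (V × V)) (x y : V) :
    H C (p :: L) x y = gH C x y p.1 p.2 * H C L x y := by simp [H]
lemma S_cons (C : Conf V) (p : V × V) (L : List (V × V)) (x y : V) :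
    S C (p :: L) x y = fR C x y p.1 p.2 + S C L x y := by simp [S]
lemma Hc_cons (C : Conf V) (p : V × V) (L : List (V × V)) (x y : V) :
    Hc C (p :: L) x y = (1 - nh C x y p.1 p.2) + Hc C L x y := by simp [Hc]

lemma S_W (C : Conf V) (L : List (V × V)) (x y : V) :
    ∃ k : ℤ, S C L x y = k ∧ W C L x y = (3/2 : ℝ)^k := by
  induction L with
  | nil => exact ⟨0, by simp [S], by simp [W]⟩
  | cons p L ih =>
    obtain ⟨k, h1, h2⟩ := ih
    have key : ∃ j : ℤ, fR C x y p.1 p.2 = j ∧ gS C x y p.1 p.2 = (3/2 : ℝ)^j := by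
      unfold fR nh gS
      rcases C.pm p.1 x with h1 | h1 <;> rcases C.pm p.1 y with h2 | h2 <;>
      rcases C.pm p.2 x with h3 | h3 <;> rcases C.pm p.2 y with h4 | h4 <;>
      rw [h1, h2, h3, h4] <;>
      first
        | (refine ⟨0, ?_, ?_⟩ <;> norm_num <;> done)
        | (refine ⟨1, ?_, ?_⟩ <;> norm_num <;> done)
        | (refine ⟨-1, ?_, ?_⟩ <;> norm_num <;> done)
    obtain ⟨j, e1, e2⟩ := key
    refine ⟨j + k, ?_, ?_⟩
    · rw [S_cons, e1, h1]; push_cast; ring
    · rw [W_cons, e2, h2, zpow_add₀ (by norm_num)]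

lemma Hc_H (C : Conf V) (L : List (V × V)) (x y : V) :
    ∃ k : ℕ, Hc C L x y = k ∧ H C L x y = (2/3 : ℝ)^k := by
  induction L with
  | nil => exact ⟨0, by simp [Hc], by simp [H]⟩
  | cons p L ih =>
    obtain ⟨k, h1, h2⟩ := ih
    have key : ∃ j : ℕ, 1 - nh C x y p.1 p.2 = j ∧ gH C x y p.1 p.2 = (2/3 : ℝ)^j := by
      unfold nh gH
      rcases C.pm p.1 x with h1 | h1 <;> rcases C.pm p.1 y with h2 | h2 <;>
      rcases C.pm p.2 x with h3 | h3 <;> rcases C.pm p.2 y with h4 | h4 <;>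
      rw [h1, h2, h3, h4] <;>
      first
        | (refine ⟨0, ?_, ?_⟩ <;> norm_num <;> done)
        | (refine ⟨1, ?_, ?_⟩ <;> norm_num <;> done)
    obtain ⟨j, e1, e2⟩ := key
    refine ⟨j + k, ?_, ?_⟩
    · rw [Hc_cons, e1, h1]; push_cast; ring
    · rw [H_cons, e2, h2, pow_add]

lemma W_pos (C : Conf V) (L : List (V × V)) (x y : V) : 0 < W C L x y := by
  obtain ⟨k, _, h⟩ := S_W C L x y
  rw [h]; positivity

lemma H_pos (C : Conf V) (L : List (V × V)) (x y : V) : 0 < H C L x y := by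
  obtain ⟨k, _, h⟩ := Hc_H C L x y
  rw [h]; positivity

lemma W_le (C : Conf V) (L : List (V × V)) (x y : V) : W C L x y ≤ (3/2)^L.length := by
  induction L with
  | nil => simp [W]
  | cons p L ih =>
    rw [W_cons, List.length_cons, pow_succ, mul_comm]
    exact mul_le_mul ih (gS_bounds C x y p.1 p.2).2 (by linarith [(gS_bounds C x y p.1 p.2).1]) (by positivity)

lemma H_le_one (C : Conf V) (L : List (V × V)) (x y : V) : H C L x y ≤ 1 := by
  obtain ⟨k, _, h⟩ := Hc_H C L x y
  rw [h]; exact pow_le_one₀ (by norm_num) (by norm_num)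

end TWK551
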