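import Pool.Agent.H551.tk.B
open Finset
namespace TWK551
variable {V : Type*} [Fintype V] [DecidableEq V]

/-- general bound, factor `s u y` -/
lemma Q1 (C : Conf V) (W : V → V → ℝ) (B ε : ℝ) (hB : 0 ≤ B) (hε : 0 < ε)
    (al be : V → V → V → ℝ) (b1 : ℝ) (hb1 : 0 ≤ b1) (hal : ∀ u v x, |al u v x| ≤ b1)
    (hbe : ∀ v x y, |W x y * be v x y| ≤ B) (hn : (1 + C.K) * B^2 ≤ ε^2 * nn V) :
    ∑ u, ∑ v, |∑ x, ∑ y, W x y * (al u v x * be v x y * C.s u y)| ≤ b1 * (ε * (nn V)^4) := by
  have h1 : ∀ u v, |∑ x, ∑ y, W x y * (al u v x * be v x y * C.s u y)| ≤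
      b1 * ∑ x, |∑ y, (W x y * be v x y) * C.s u y| := by
    intro u v
    have e : ∑ x, ∑ y, W x y * (al u v x * be v x y * C.s u y) =
        ∑ x, al u v x * ∑ y, (W x y * be v x y) * C.s u y := by
      refine Finset.sum_congr rfl fun x _ => ?_
      rw [Finset.mul_sum]
      refine Finset.sum_congr rfl fun y _ => by ring
    rw [e, Finset.mul_sum]
    refine le_trans (Finset.abs_sum_le_sum_abs _ _) (Finset.sum_le_sum fun x _ => ?_)
    rw [abs_mul]
    exact mul_le_mul_of_nonneg_right (hal u v x) (abs_nonneg _)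
  refine le_trans (Finset.sum_le_sum fun u _ => Finset.sum_le_sum fun v _ => h1 u v) ?_
  simp only [← Finset.mul_sum]
  apply mul_le_mul_of_nonneg_left _ hb1
  have := abs_sum3 C (fun v x y => W x y * be v x y) B ε hB hε hbe hn
  refine le_trans (le_of_eq ?_) this
  rw [Finset.sum_comm]
  refine Finset.sum_congr rfl fun v _ => ?_
  rw [Finset.sum_comm]

noncomputable def pat (C : Conf V) (x y u v : V) : ℝ :=
  (1 + C.s u x) * (1 - C.s u y) * (1 - C.s v x) * (1 + C.s v y)

lemma one_add_abs (C : Conf V) (u x : V) : |1 + C.s u x| ≤ 2 := by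
  rcases C.pm u x with h | h <;> rw [h] <;> norm_num
lemma one_sub_abs (C : Conf V) (u x : V) : |1 - C.s u x| ≤ 2 := by
  rcases C.pm u x with h | h <;> rw [h] <;> norm_num

/-- the number of members of a set of pairs compatible with `(u,v)` is about one sixteenth -/
lemma pat_dev (C : Conf V) (W : V → V → ℝ) (ε : ℝ) (hε : 0 < ε) (hW : ∀ x y, |W x y| ≤ 1)
    (hn : (1 + C.K) * 4^2 ≤ ε^2 * nn V) :
    ∑ u, ∑ v, |∑ x, ∑ y, W x y * (pat C x y u v - 1)| ≤ 16 * (ε * (nn V)^4) := by
  -- telescoping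
  set T1 : V → V → ℝ := fun u v => ∑ y, ∑ x, W x y * (1 * 1 * C.s u x) with hT1
  set T2 : V → V → ℝ := fun u v => ∑ x, ∑ y, W x y * ((1 + C.s u x) * 1 * C.s u y) with hT2
  set T3 : V → V → ℝ := fun v u => ∑ y, ∑ x, W x y * ((1 - C.s u y) * (1 + C.s u x) * C.s v x) with hT3
  set T4 : V → V → ℝ := fun v u => ∑ x, ∑ y, W x y * (((1 + C.s u x) * (1 - C.s v x)) * (1 - C.s u y) * C.s v y) with hT4
  have e0 : ∀ u v, ∑ x, ∑ y, W x y * (pat C x y u v - 1) = T1 u v - T2 u v - T3 v u + T4 v u := by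
    intro u v
    simp only [hT1, hT2, hT3, hT4]
    rw [Finset.sum_comm (s := univ) (t := univ) (f := fun y x => W x y * (1 * 1 * C.s u x)),
      Finset.sum_comm (s := univ) (t := univ) (f := fun y x => W x y * ((1 - C.s u y) * (1 + C.s u x) * C.s v x))]
    rw [← Finset.sum_sub_distrib, ← Finset.sum_sub_distrib, ← Finset.sum_add_distrib]
    refine Finset.sum_congr rfl fun x _ => ?_
    rw [← Finset.sum_sub_distrib, ← Finset.sum_sub_distrib, ← Finset.sum_add_distrib]
    refine Finset.sum_congr rfl fun y _ => ?_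
    unfold pat; ring
  have hK := C.hK
  have hW4 : ∀ x y, |W x y * (1:ℝ)| ≤ 4 := fun x y => by rw [mul_one]; linarith [hW x y]
  have b1 : ∑ u, ∑ v, |T1 u v| ≤ 1 * (ε * (nn V)^4) := by
    refine Q1 C (fun y x => W x y) 4 ε (by norm_num) hε (fun _ _ _ => 1) (fun _ _ _ => 1) 1 (by norm_num)
      (fun _ _ _ => by simp) (fun v x y => hW4 y x) hn
  have b2 : ∑ u, ∑ v, |T2 u v| ≤ 2 * (ε * (nn V)^4) := by
    refine Q1 C W 4 ε (by norm_num) hε (fun u _ x => 1 + C.s u x) (fun _ _ _ => 1) 2 (by norm_num)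
      (fun u _ x => one_add_abs C u x) (fun v x y => hW4 x y) hn
  have b3 : ∑ v, ∑ u, |T3 v u| ≤ 2 * (ε * (nn V)^4) := by
    refine Q1 C (fun y x => W x y) 4 ε (by norm_num) hε (fun _ u y => 1 - C.s u y) (fun u _ x => 1 + C.s u x) 2 (by norm_num)
      (fun _ u y => one_sub_abs C u y) (fun u y x => ?_) hn
    rw [abs_mul]
    have := mul_le_mul (hW x y) (one_add_abs C u x) (abs_nonneg _) zero_le_one
    linarith
  have b4 : ∑ v, ∑ u, |T4 v u| ≤ 4 * (ε * (nn V)^4) := by
    refine Q1 C W 4 ε (by norm_num) hε (fun v u x => (1 + C.s u x) * (1 - C.s v x)) (fun u _ y => 1 - C.s u y) 4 (by norm_num)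
      (fun v u x => ?_) (fun u x y => ?_) hn
    · rw [abs_mul]
      have := mul_le_mul (one_add_abs C u x) (one_sub_abs C v x) (abs_nonneg _) zero_le_two
      linarith
    · rw [abs_mul]
      have := mul_le_mul (hW x y) (one_sub_abs C u y) (abs_nonneg _) zero_le_one
      linarith
  have hpt : ∀ u v, |∑ x, ∑ y, W x y * (pat C x y u v - 1)| ≤ |T1 u v| + |T2 u v| + |T3 v u| + |T4 v u| := by
    intro u v
    rw [e0 u v, abs_le]
    have := neg_abs_le (T1 u v); have := le_abs_self (T1 u v)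
    have := neg_abs_le (T2 u v); have := le_abs_self (T2 u v)
    have := neg_abs_le (T3 v u); have := le_abs_self (T3 v u)
    have := neg_abs_le (T4 v u); have := le_abs_self (T4 v u)
    constructor <;> linarith
  refine le_trans (Finset.sum_le_sum fun u _ => Finset.sum_le_sum fun v _ => hpt u v) ?_
  simp only [Finset.sum_add_distrib]
  have b3' : ∑ u, ∑ v, |T3 v u| ≤ 2 * (ε * (nn V)^4) := by rw [Finset.sum_comm]; exact b3
  have b4' : ∑ u, ∑ v, |T4 v u| ≤ 4 * (ε * (nn V)^4) := by rw [Finset.sum_comm]; exact b4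
  have : 0 ≤ ε * (nn V)^4 := by positivity
  linarith

/-- pairs of `P` compatible with `(u,v)` -/
noncomputable def cp (C : Conf V) (P : Finset (V × V)) (u v : V) : Finset (V × V) :=
  by classical exact P.filter (fun p => C.s u p.1 = 1 ∧ C.s u p.2 = -1 ∧ C.s v p.1 = -1 ∧ C.s v p.2 = 1)

lemma mem_cp (C : Conf V) (P : Finset (V × V)) (u v : V) (p : V × V) :
    p ∈ cp C P u v ↔ p ∈ P ∧ C.s u p.1 = 1 ∧ C.s u p.2 = -1 ∧ C.s v p.1 = -1 ∧ C.s v p.2 = 1 := by
  classical
  simp [cp]

lemma card_cp (C : Conf V) (P : Finset (V × V)) (u v : V) :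
    16 * ((cp C P u v).card : ℝ) - P.card = ∑ x, ∑ y, (if (x, y) ∈ P then (1:ℝ) else 0) * (pat C x y u v - 1) := by
  classical
  have h1 : (P.card : ℝ) = ∑ x, ∑ y, (if (x, y) ∈ P then (1:ℝ) else 0) := by
    rw [← Fintype.sum_prod_type' (f := fun x y => (if (x, y) ∈ P then (1:ℝ) else 0))]
    simp
  have h2 : 16 * ((cp C P u v).card : ℝ) = ∑ x, ∑ y, (if (x, y) ∈ P then (1:ℝ) else 0) * pat C x y u v := by
    have e : ((cp C P u v).card : ℝ) = ∑ x, ∑ y, (if (x, y) ∈ cp C P u v then (1:ℝ) else 0) := by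
      rw [← Fintype.sum_prod_type' (f := fun x y => (if (x, y) ∈ cp C P u v then (1:ℝ) else 0))]
      simp
    rw [e, Finset.mul_sum]
    refine Finset.sum_congr rfl fun x _ => ?_
    rw [Finset.mul_sum]
    refine Finset.sum_congr rfl fun y _ => ?_
    by_cases hP : (x, y) ∈ P
    · rw [if_pos hP]
      by_cases hc : (x, y) ∈ cp C P u v
      · rw [if_pos hc]
        rw [mem_cp] at hc
        obtain ⟨_, a, b, c, d⟩ := hc
        simp only at a b c d
        unfold pat
        rw [a, b, c, d]; norm_num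
      · rw [if_neg hc]
        rw [mem_cp] at hc
        have : pat C x y u v = 0 := by
          unfold pat
          rcases C.pm u x with a | a
          · rcases C.pm u y with b | b
            · rw [b]; ring
            · rcases C.pm v x with c | c
              · rw [c]; ring
              · rcases C.pm v y with d | d
                · exact absurd ⟨hP, a, b, c, d⟩ hc
                · rw [d]; ring
          · rw [a]; ring
        rw [this]; ring
    · rw [if_neg hP]
      have hc : (x, y) ∉ cp C P u v := by rw [mem_cp]; exact fun h => hP h.1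
      rw [if_neg hc]; ring
  rw [h1, h2, ← Finset.sum_sub_distrib]
  refine Finset.sum_congr rfl fun x _ => ?_
  rw [← Finset.sum_sub_distrib]
  refine Finset.sum_congr rfl fun y _ => by ring

def SpGood (C : Conf V) (L : List (V × V)) : Prop :=
  ∀ p ∈ L, S C L p.1 p.2 + (1 + C.s p.1 p.2)/2 + L.length ≤ 1

lemma Phi_cons (C : Conf V) (L : List (V × V)) (u v : V) :
    Phi C ((u, v) :: L) = 47/48 * Phi C L +
      ∑ x, ∑ y, (if x = y then 0 else W C L x y) * (gS C x y u v - 47/48) := by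
  unfold Phi
  rw [Finset.mul_sum, ← Finset.sum_add_distrib]
  refine Finset.sum_congr rfl fun x _ => ?_
  rw [Finset.mul_sum, ← Finset.sum_add_distrib]
  refine Finset.sum_congr rfl fun y _ => ?_
  rw [W_cons]
  split_ifs <;> ring

lemma sp_step (C : Conf V) (L : List (V × V)) (P : Finset (V × V))
    (γ κ ε : ℝ) (hγ : 0 < γ) (hκ : 0 < κ) (hε : 0 < ε) (hP : γ * (nn V)^2 ≤ P.card)
    (hn1 : (1 + C.K) * ((3/2)^L.length)^2 ≤ ε^2 * nn V) (hn1' : (1 + C.K) * 4^2 ≤ ε^2 * nn V)
    (hn2 : ε / κ + 32 * ε / γ ≤ γ/4)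
    (hn3 : 4 * (L.length : ℝ) + 1 < γ * nn V / 2) :
    ∃ u v, (u, v) ∈ P ∧ u ∉ vs L ∧ v ∉ vs L ∧ u ≠ v ∧ (P.card : ℝ)/32 ≤ (cp C P u v).card ∧
      Phi C ((u, v) :: L) ≤ 47/48 * Phi C L + κ * (nn V)^2 := by
  classical
  by_contra hcon
  push Not at hcon
  have hn0 : 0 < nn V := by
    by_contra h
    have h0 : nn V = 0 := le_antisymm (not_lt.1 h) (Nat.cast_nonneg _)
    rw [h0] at hn3
    have : (0:ℝ) ≤ L.length := Nat.cast_nonneg _
    linarith
  set F1 : V → V → ℝ := fun u v => |∑ x, ∑ y, (if x = y then 0 else W C L x y) * (gS C x y u v - 47/48)| with hF1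
  set F2 : V → V → ℝ := fun u v => |16 * ((cp C P u v).card : ℝ) - P.card| with hF2
  set F4 : V → V → ℝ := fun u v => (if u ∈ vs L then 1 else 0) + (if v ∈ vs L then 1 else 0) + (if u = v then 1 else 0) with hF4
  set d := γ * (nn V)^2 / 2 with hd
  have hd0 : 0 < d := by positivity
  set k := κ * (nn V)^2 with hk
  have hk0 : 0 < k := by positivity
  have n1 : ∀ u v, 0 ≤ F1 u v := fun u v => abs_nonneg _
  have n2 : ∀ u v, 0 ≤ F2 u v := fun u v => abs_nonneg _
  have n4 : ∀ u v, 0 ≤ F4 u v := fun u v => by simp only [hF4]; positivity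
  have hT : ∀ p ∈ P, 1 ≤ F1 p.1 p.2 / k + F2 p.1 p.2 / d + F4 p.1 p.2 := by
    rintro ⟨u, v⟩ huv
    simp only
    have p1 : 0 ≤ F1 u v / k := div_nonneg (n1 u v) hk0.le
    have p2 : 0 ≤ F2 u v / d := div_nonneg (n2 u v) hd0.le
    have p4 := n4 u v
    by_cases a1 : u ∈ vs L
    · have : 1 ≤ F4 u v := by simp only [hF4, if_pos a1]; split_ifs <;> norm_num
      linarith
    by_cases a2 : v ∈ vs L
    · have : 1 ≤ F4 u v := by simp only [hF4, if_pos a2]; split_ifs <;> norm_num
      linarith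
    by_cases a3 : u = v
    · have : 1 ≤ F4 u v := by simp only [hF4, if_pos a3]; split_ifs <;> norm_num
      linarith
    by_cases a4 : (P.card : ℝ)/32 ≤ (cp C P u v).card
    swap
    · have : d ≤ F2 u v := by
        simp only [hF2]
        have := neg_abs_le (16 * ((cp C P u v).card : ℝ) - P.card)
        linarith
      have : 1 ≤ F2 u v / d := (one_le_div hd0).2 this
      linarith
    have a6 := hcon u v huv a1 a2 a3 a4
    rw [Phi_cons] at a6
    have : k ≤ F1 u v := by
      simp only [hF1]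
      have := le_abs_self (∑ x, ∑ y, (if x = y then 0 else W C L x y) * (gS C x y u v - 47/48))
      linarith
    have : 1 ≤ F1 u v / k := (one_le_div hk0).2 this
    linarith
  have s1 : ∑ u, ∑ v, F1 u v ≤ ε * (nn V)^4 := by
    refine quasi C (fun x y => if x = y then 0 else W C L x y) ((3/2)^L.length) ε (by positivity) hε ?_ hn1
    intro x y
    split_ifs
    · simp; positivity
    · rw [abs_of_pos (W_pos C L x y)]; exact W_le C L x y
  have s2 : ∑ u, ∑ v, F2 u v ≤ 16 * (ε * (nn V)^4) := by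
    have := pat_dev C (fun x y => if (x, y) ∈ P then (1:ℝ) else 0) ε hε
      (fun x y => by split_ifs <;> simp) hn1'
    refine le_trans (le_of_eq ?_) this
    refine Finset.sum_congr rfl fun u _ => Finset.sum_congr rfl fun v _ => ?_
    simp only [hF2]; rw [card_cp]
  have s4 : ∑ u, ∑ v, F4 u v ≤ (4 * (L.length : ℝ) + 1) * nn V := by
    have t1 : ∑ u : V, (if u ∈ vs L then (1:ℝ) else 0) ≤ 2 * L.length := by
      rw [← Finset.sum_filter]
      simp only [Finset.sum_const, nsmul_eq_mul, mul_one]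
      have : (univ.filter (fun u => u ∈ vs L)).card ≤ (vs L).length := by
        refine le_trans (Finset.card_le_card (t := (vs L).toFinset) ?_) (List.toFinset_card_le _)
        intro z hz; simpa using hz
      rw [vs_length] at this
      exact_mod_cast this
    simp only [hF4, Finset.sum_add_distrib, Finset.sum_const, Finset.card_univ, nsmul_eq_mul,
      Finset.sum_ite_eq, Finset.mem_univ, if_true, ← Finset.mul_sum]
    have hn0' : (0:ℝ) ≤ (Fintype.card V : ℝ) := Nat.cast_nonneg _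
    have := mul_le_mul_of_nonneg_left t1 hn0'
    unfold nn at *
    nlinarith
  have tot : (P.card : ℝ) ≤ (ε * (nn V)^4) / k + (16 * (ε * (nn V)^4)) / d +
      (4 * (L.length : ℝ) + 1) * nn V := by
    calc (P.card : ℝ) = ∑ p ∈ P, (1:ℝ) := by simp
      _ ≤ ∑ p ∈ P, (F1 p.1 p.2 / k + F2 p.1 p.2 / d + F4 p.1 p.2) := Finset.sum_le_sum hT
      _ ≤ ∑ p : V × V, (F1 p.1 p.2 / k + F2 p.1 p.2 / d + F4 p.1 p.2) := by
          refine Finset.sum_le_sum_of_subset_of_nonneg (Finset.subset_univ P) fun p _ _ => ?_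
          exact add_nonneg (add_nonneg (div_nonneg (n1 _ _) hk0.le) (div_nonneg (n2 _ _) hd0.le)) (n4 _ _)
      _ = ∑ u, ∑ v, (F1 u v / k + F2 u v / d + F4 u v) :=
          Fintype.sum_prod_type' (f := fun u v => F1 u v / k + F2 u v / d + F4 u v)
      _ = (∑ u, ∑ v, F1 u v) / k + (∑ u, ∑ v, F2 u v) / d + ∑ u, ∑ v, F4 u v := by
          simp only [Finset.sum_add_distrib, ← Finset.sum_div]
      _ ≤ _ := by gcongr
  have e1 : (ε * (nn V)^4) / k = ε / κ * (nn V)^2 := by rw [hk]; field_simp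
  have e2 : (16 * (ε * (nn V)^4)) / d = 32 * ε / γ * (nn V)^2 := by rw [hd]; field_simp; ring
  rw [e1, e2] at tot
  have up : (ε / κ + 32 * ε / γ) * (nn V)^2 ≤ γ/4 * (nn V)^2 := by gcongr
  have up2 : (4 * (L.length : ℝ) + 1) * nn V ≤ (γ * nn V / 2) * nn V := by gcongr
  have hpos : 0 < γ * (nn V)^2 := by positivity
  nlinarith

end TWK551
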