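import Pool.Agent.H551.tk.C
open Finset
namespace TWK551
universe w

lemma fR_self {V : Type*} [Fintype V] [DecidableEq V] (C : Conf V) (x y : V) :
    fR C x y x y = - (1 + C.s x y)/2 := by
  unfold fR nh
  rw [C.dg x, C.dg y, C.symm y x]
  rcases C.pm x y with h | h <;> rw [h] <;> norm_num

lemma fR_neg {V : Type*} [Fintype V] [DecidableEq V] (C : Conf V) (x y u v : V)
    (h1 : C.s u x = 1) (h2 : C.s u y = -1) (h3 : C.s v x = -1) (h4 : C.s v y = 1) : fR C x y u v = -1 := by
  unfold fR nh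
  rw [h1, h2, h3, h4]; norm_num

structure St {V : Type*} [Fintype V] [DecidableEq V] (C : Conf V) (L : List (V × V)) (P : Finset (V × V)) : Prop where
  nd : (vs L).Nodup
  co : ∀ p ∈ L, ∀ q ∈ P, C.s p.1 q.1 = 1 ∧ C.s p.1 q.2 = -1 ∧ C.s p.2 q.1 = -1 ∧ C.s p.2 q.2 = 1
  sp : SpGood C L

lemma spgood_cons {V : Type*} [Fintype V] [DecidableEq V] {C : Conf V} {L : List (V × V)} {P : Finset (V × V)}
    (h : St C L P) {u v : V} (huv : (u, v) ∈ P) : SpGood C ((u, v) :: L) := by
  intro p hp
  rw [List.mem_cons] at hp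
  rw [S_cons, List.length_cons]
  push_cast
  rcases hp with rfl | hp
  · simp only
    rw [fR_self]
    have hS : S C L u v = - L.length := by
      have : ∀ L' : List (V × V), (∀ p ∈ L', fR C u v p.1 p.2 = -1) → S C L' u v = - L'.length := by
        intro L' h
        induction L' with
        | nil => simp [S]
        | cons q L' ih' =>
          rw [S_cons, ih' (fun p hp => h p (List.mem_cons_of_mem _ hp)), h q List.mem_cons_self,
            List.length_cons]
          push_cast; ring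
      refine this L fun p hp => ?_
      obtain ⟨a, b, c, d⟩ := h.co p hp _ huv
      exact fR_neg C u v p.1 p.2 a b c d
    rw [hS]
    linarith
  · have h0 := h.sp p hp
    obtain ⟨a, b, c, d⟩ := h.co p hp _ huv
    simp only at a b c d
    have : fR C p.1 p.2 u v = -1 := by
      refine fR_neg C p.1 p.2 u v ?_ ?_ ?_ ?_
      · rw [C.symm]; exact a
      · rw [C.symm]; exact c
      · rw [C.symm]; exact b
      · rw [C.symm]; exact d
    rw [this]
    linarith

theorem special (j : ℕ) (γ K0 : ℝ) (hγ : 0 < γ) (hK0 : 0 ≤ K0) : ∀ ε : ℝ, 0 < ε → ∃ n0 : ℕ,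
    ∀ (V : Type w) [Fintype V] [DecidableEq V] (C : Conf V), C.K ≤ K0 → n0 ≤ Fintype.card V →
    ∀ (L0 : List (V × V)) (P0 : Finset (V × V)), L0.length ≤ 1 → St C L0 P0 → γ * (nn V)^2 ≤ P0.card →
    ∃ (M : List (V × V)) (P : Finset (V × V)), M.length = j ∧ St C (M ++ L0) P ∧ (∀ p ∈ M, p ∈ P0) ∧ P ⊆ P0 ∧
      γ / 32^j * (nn V)^2 ≤ P.card ∧ Phi C (M ++ L0) ≤ ((47/48)^j * (3/2) + ε) * (nn V)^2 ∧
      (∀ L', L' <:+ M ++ L0 → SpGood C L') := by
  induction j with
  | zero =>
    intro ε hε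
    refine ⟨0, ?_⟩
    intro V _ _ C _ _ L0 P0 hlen hSt hP
    refine ⟨[], P0, rfl, by simpa using hSt, by simp, Finset.Subset.refl _, by simpa using hP, ?_, ?_⟩
    · rw [List.nil_append]
      unfold Phi
      have h1 : ∀ x y : V, (if x = y then 0 else W C L0 x y) ≤ 3/2 := by
        intro x y; split_ifs
        · norm_num
        · refine le_trans (W_le C L0 x y) ?_
          have : (3/2:ℝ)^L0.length ≤ (3/2)^1 := pow_le_pow_right₀ (by norm_num) hlen
          simpa using this
      calc ∑ x, ∑ y, (if x = y then 0 else W C L0 x y) ≤ ∑ x : V, ∑ y : V, (3/2:ℝ) :=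
            Finset.sum_le_sum fun x _ => Finset.sum_le_sum fun y _ => h1 x y
        _ = 3/2 * (nn V)^2 := by simp [sq]; ring
        _ ≤ ((47/48)^0 * (3/2) + ε) * (nn V)^2 := by
            have : 0 ≤ (nn V)^2 := by positivity
            nlinarith
    · rw [List.nil_append]
      intro L' hL'
      -- length at most one
      rcases L0 with _ | ⟨p, L0⟩
      · have : L' = [] := List.suffix_nil.1 hL'
        subst this; intro p hp; simp at hp
      · rw [List.suffix_cons_iff] at hL'
        rcases hL' with rfl | hL'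
        · exact hSt.sp
        · have h0 : L0 = [] := by
            rw [List.length_cons] at hlen
            exact List.length_eq_zero_iff.1 (by omega)
          subst h0
          have : L' = [] := List.suffix_nil.1 hL'
          subst this; intro p hp; simp at hp
  | succ j ih =>
    intro ε hε
    obtain ⟨n0, ih⟩ := ih (ε/2) (by positivity)
    set γ' : ℝ := γ / 32^j with hγ'
    have hγ0 : 0 < γ' := by positivity
    set κ : ℝ := ε/2 with hκ
    have hκ0 : 0 < κ := by positivity
    set η : ℝ := (γ'/4) / (1/κ + 32/γ') with hη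
    have hη0 : 0 < η := by positivity
    obtain ⟨n1, hn1⟩ := exists_nat_ge ((1 + K0) * ((3/2:ℝ)^(j+1))^2 / η^2)
    obtain ⟨n1', hn1'⟩ := exists_nat_ge ((1 + K0) * 4^2 / η^2)
    obtain ⟨n2, hn2⟩ := exists_nat_gt ((4 * ((j:ℝ)+1) + 1) * 2 / γ')
    refine ⟨n0 + n1 + n1' + n2, ?_⟩
    intro V _ _ C hCK hV L0 P0 hlen hSt hP
    obtain ⟨M, P, hM, hSt', hMP, hPP, hPc, hPhi, hsuf⟩ := ih V C hCK (by omega) L0 P0 hlen hSt hP
    have hc : ∀ k : ℕ, k ≤ Fintype.card V → (k:ℝ) ≤ nn V := fun k hk => by unfold nn; exact_mod_cast hk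
    have hl : (M ++ L0).length ≤ j + 1 := by rw [List.length_append, hM]; omega
    have c1 : (1 + C.K) * ((3/2)^(M ++ L0).length)^2 ≤ η^2 * nn V := by
      have h1 : (1 + K0) * ((3/2:ℝ)^(j+1))^2 / η^2 ≤ nn V := le_trans hn1 (hc n1 (by omega))
      rw [div_le_iff₀ (by positivity)] at h1
      have h2 : (3/2:ℝ)^(M ++ L0).length ≤ (3/2)^(j+1) := pow_le_pow_right₀ (by norm_num) hl
      have h3 : ((3/2:ℝ)^(M ++ L0).length)^2 ≤ ((3/2)^(j+1))^2 := pow_le_pow_left₀ (by positivity) h2 2
      have hCK' := C.hK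
      calc (1 + C.K) * ((3/2)^(M ++ L0).length)^2 ≤ (1 + K0) * ((3/2)^(j+1))^2 := by
            apply mul_le_mul (by linarith) h3 (by positivity) (by linarith)
        _ ≤ η^2 * nn V := by linarith
    have c1' : (1 + C.K) * 4^2 ≤ η^2 * nn V := by
      have h1 : (1 + K0) * 4^2 / η^2 ≤ nn V := le_trans hn1' (hc n1' (by omega))
      rw [div_le_iff₀ (by positivity)] at h1
      nlinarith
    have c2 : η / κ + 32 * η / γ' ≤ γ'/4 := by
      have : η / κ + 32 * η / γ' = η * (1/κ + 32/γ') := by ring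
      rw [this, hη, div_mul_cancel₀]
      positivity
    have c3 : 4 * ((M ++ L0).length : ℝ) + 1 < γ' * nn V / 2 := by
      have h1 : (4 * ((j:ℝ)+1) + 1) * 2 / γ' < nn V := lt_of_lt_of_le hn2 (hc n2 (by omega))
      rw [div_lt_iff₀ (by positivity)] at h1
      have : ((M ++ L0).length : ℝ) ≤ (j:ℝ) + 1 := by exact_mod_cast hl
      linarith
    obtain ⟨u, v, huv, hul, hvl, hne, hcard, hP'⟩ := sp_step C (M ++ L0) P γ' κ η hγ0 hκ0 hη0 hPc c1 c1' c2 c3
    have hSpNew : SpGood C ((u, v) :: (M ++ L0)) := spgood_cons hSt' huv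
    refine ⟨(u, v) :: M, cp C P u v, by simp [hM], ⟨?_, ?_, ?_⟩, ?_, ?_, ?_, ?_, ?_⟩
    · rw [List.cons_append, vs_cons]
      simp only [List.nodup_cons, List.mem_cons, not_or]
      exact ⟨⟨hne, hul⟩, hvl, hSt'.nd⟩
    · intro p hp q hq
      rw [mem_cp] at hq
      rw [List.cons_append, List.mem_cons] at hp
      rcases hp with rfl | hp
      · exact hq.2
      · exact hSt'.co p hp q hq.1
    · rw [List.cons_append]; exact hSpNew
    · intro p hp
      rw [List.mem_cons] at hp
      rcases hp with rfl | hp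
      · exact hPP huv
      · exact hMP p hp
    · intro q hq
      rw [mem_cp] at hq
      exact hPP hq.1
    · have : γ / 32^(j+1) * (nn V)^2 = (γ' * (nn V)^2) / 32 := by rw [hγ', pow_succ]; field_simp
      rw [this]; linarith
    · rw [List.cons_append]
      refine le_trans hP' ?_
      have h1 : 47/48 * Phi C (M ++ L0) ≤ 47/48 * (((47/48)^j * (3/2) + ε/2) * (nn V)^2) := by gcongr
      have h2 : 0 ≤ ε * (nn V)^2 := by positivity
      have h3 : 47/48 * (((47/48)^j * (3/2) + ε/2) * (nn V)^2) + κ * (nn V)^2 =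
          ((47/48)^(j+1) * (3/2) + ε) * (nn V)^2 - ε * (nn V)^2 / 96 := by
        rw [hκ, pow_succ]; ring
      linarith
    · intro L' hL'
      rw [List.cons_append, List.suffix_cons_iff] at hL'
      rcases hL' with rfl | hL'
      · exact hSpNew
      · exact hsuf L' hL'

end TWK551
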