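import Pool.Agent.H551.tk.D
open Finset
namespace TWK551
universe w
variable {V : Type*} [Fintype V] [DecidableEq V]

noncomputable def gN (C : Conf V) (z u v : V) : ℝ := 1 - (1 + C.s u z * C.s v z)/4
noncomputable def NW (C : Conf V) (L : List (V × V)) (z : V) : ℝ := (L.map (fun p => gN C z p.1 p.2)).prod
noncomputable def Nc (C : Conf V) (L : List (V × V)) (z : V) : ℝ := (L.map (fun p => (1 + C.s p.1 z * C.s p.2 z)/2)).sum
noncomputable def Phi3 (C : Conf V) (L : List (V × V)) : ℝ := ∑ z, NW C L z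

lemma NW_cons (C : Conf V) (p : V × V) (L : List (V × V)) (z : V) :
    NW C (p :: L) z = gN C z p.1 p.2 * NW C L z := by simp [NW]
lemma Nc_cons (C : Conf V) (p : V × V) (L : List (V × V)) (z : V) :
    Nc C (p :: L) z = (1 + C.s p.1 z * C.s p.2 z)/2 + Nc C L z := by simp [Nc]

lemma gN_bounds (C : Conf V) (z u v : V) : 1/2 ≤ gN C z u v ∧ gN C z u v ≤ 1 := by
  unfold gN
  rcases C.pm u z with h1 | h1 <;> rcases C.pm v z with h2 | h2 <;> rw [h1, h2] <;> norm_num

lemma Nc_NW (C : Conf V) (L : List (V × V)) (z : V) :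
    ∃ k : ℕ, Nc C L z = k ∧ NW C L z = (1/2 : ℝ)^k := by
  induction L with
  | nil => exact ⟨0, by simp [Nc], by simp [NW]⟩
  | cons p L ih =>
    obtain ⟨k, h1, h2⟩ := ih
    have key : ∃ j : ℕ, (1 + C.s p.1 z * C.s p.2 z)/2 = (j:ℝ) ∧ gN C z p.1 p.2 = (1/2 : ℝ)^j := by
      unfold gN
      rcases C.pm p.1 z with h1 | h1 <;> rcases C.pm p.2 z with h2 | h2 <;>
      rw [h1, h2] <;>
      first
        | (refine ⟨0, ?_, ?_⟩ <;> norm_num <;> done)
        | (refine ⟨1, ?_, ?_⟩ <;> norm_num <;> done)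
    obtain ⟨j, e1, e2⟩ := key
    refine ⟨j + k, ?_, ?_⟩
    · rw [Nc_cons, e1, h1]; push_cast; ring
    · rw [NW_cons, e2, h2, pow_add]

lemma NW_pos (C : Conf V) (L : List (V × V)) (z : V) : 0 < NW C L z := by
  obtain ⟨k, _, h⟩ := Nc_NW C L z
  rw [h]; positivity

lemma NW_le_one (C : Conf V) (L : List (V × V)) (z : V) : NW C L z ≤ 1 := by
  obtain ⟨k, _, h⟩ := Nc_NW C L z
  rw [h]; exact pow_le_one₀ (by norm_num) (by norm_num)

lemma Phi3_nonneg (C : Conf V) (L : List (V × V)) : 0 ≤ Phi3 C L :=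
  Finset.sum_nonneg fun z _ => (NW_pos C L z).le

lemma Phi3_le (C : Conf V) (L : List (V × V)) : Phi3 C L ≤ nn V := by
  unfold Phi3
  calc ∑ z, NW C L z ≤ ∑ z : V, (1:ℝ) := Finset.sum_le_sum fun z _ => NW_le_one C L z
    _ = nn V := by simp

lemma NW_le_Phi3 (C : Conf V) (L : List (V × V)) (z : V) : NW C L z ≤ Phi3 C L :=
  Finset.single_le_sum (f := fun z => NW C L z) (fun z _ => (NW_pos C L z).le) (Finset.mem_univ z)

lemma sum_gN (C : Conf V) (z : V) : ∑ u, ∑ v, gN C z u v ≤ 47/48 * (nn V)^2 + C.K * nn V := by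
  set r := ∑ u, C.s u z with hr
  have h1 : ∀ u, ∑ v, gN C z u v = nn V - (nn V + C.s u z * r)/4 := by
    intro u
    unfold gN
    simp only [Finset.sum_sub_distrib, ← Finset.sum_div, Finset.sum_add_distrib, ← Finset.mul_sum,
      Finset.sum_const, Finset.card_univ, nsmul_eq_mul, ← hr, mul_one]
  have h2 : ∑ u, ∑ v, gN C z u v = (nn V)^2 - ((nn V)^2 + r^2)/4 := by
    rw [Finset.sum_congr rfl (fun u _ => h1 u)]
    simp only [Finset.sum_sub_distrib, ← Finset.sum_div, Finset.sum_add_distrib, ← Finset.sum_mul,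
      Finset.sum_const, Finset.card_univ, nsmul_eq_mul, ← hr]
    ring
  rw [h2]
  have hn : 0 ≤ nn V := Nat.cast_nonneg _
  have hK := C.hK
  have h4 : 0 ≤ C.K * nn V := by positivity
  nlinarith [sq_nonneg r, sq_nonneg (nn V)]

noncomputable def Lam (C : Conf V) (c : ℝ) (L : List (V × V)) : ℝ :=
  Psi C L + 200 / (nn V)^2 * Phi C L + c / (nn V)^2 * Phi2 C L + c / (nn V) * Phi3 C L

lemma sum_offDiag_le (R : Finset V) (F : V → V → ℝ) (hF : ∀ u v, 0 ≤ F u v) :
    ∑ p ∈ R.offDiag, F p.1 p.2 ≤ ∑ u, ∑ v, F u v := by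
  rw [← Fintype.sum_prod_type' (f := F)]
  exact Finset.sum_le_sum_of_subset_of_nonneg (Finset.subset_univ _) fun p _ _ => hF _ _

lemma list_avg (Q : Finset (V × V)) (L : List (V × V)) (G : V × V → V → V → ℝ) (c : V × V → ℝ) (A : ℝ)
    (hG : ∀ p ∈ L, ∑ q ∈ Q, G p q.1 q.2 ≤ A) (hc : ∀ p ∈ L, 0 ≤ c p) :
    ∑ q ∈ Q, (L.map (fun p => G p q.1 q.2 * c p)).sum ≤ A * (L.map c).sum := by
  induction L with
  | nil => simp
  | cons p L ih =>
    simp only [List.map_cons, List.sum_cons, Finset.sum_add_distrib, mul_add]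
    have h1 := ih (fun p hp => hG p (List.mem_cons_of_mem _ hp)) (fun p hp => hc p (List.mem_cons_of_mem _ hp))
    have h2 : ∑ q ∈ Q, G p q.1 q.2 * c p ≤ A * c p := by
      rw [← Finset.sum_mul]
      exact mul_le_mul_of_nonneg_right (hG p List.mem_cons_self) (hc p List.mem_cons_self)
    linarith

lemma gS_self (C : Conf V) (u v : V) : gS C u v u v ≤ 1 := by
  unfold gS
  rw [C.dg u, C.dg v, C.symm v u]
  rcases C.pm u v with h | h <;> rw [h] <;> norm_num

lemma Psi_cons (C : Conf V) (L : List (V × V)) (u v : V) :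
    Psi C ((u, v) :: L) = gS C u v u v * W C L u v +
      (L.map (fun p => gS C p.1 p.2 u v * W C L p.1 p.2)).sum := by
  unfold Psi
  rw [List.map_cons, List.sum_cons, W_cons]
  congr 1

lemma pair_ne {L : List (V × V)} (h : (vs L).Nodup) {p : V × V} (hp : p ∈ L) : p.1 ≠ p.2 := by
  induction L with
  | nil => simp at hp
  | cons q L ih =>
    rw [vs_cons, List.nodup_cons, List.nodup_cons] at h
    rcases List.mem_cons.1 hp with rfl | hp
    · intro he; exact h.1 (he ▸ List.mem_cons_self)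
    · exact ih h.2.2 hp

lemma Phi_nonneg (C : Conf V) (L : List (V × V)) : 0 ≤ Phi C L :=
  Finset.sum_nonneg fun x _ => Finset.sum_nonneg fun y _ => by
    split_ifs
    · exact le_refl _
    · exact (W_pos C L x y).le

lemma Phi2_nonneg (C : Conf V) (L : List (V × V)) : 0 ≤ Phi2 C L :=
  Finset.sum_nonneg fun x _ => Finset.sum_nonneg fun y _ => by
    split_ifs
    · exact le_refl _
    · exact (H_pos C L x y).le

lemma W_le_Phi (C : Conf V) (L : List (V × V)) {x y : V} (h : x ≠ y) : W C L x y ≤ Phi C L := by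
  unfold Phi
  have h0 : ∀ x y : V, 0 ≤ (if x = y then 0 else W C L x y) := fun x y => by
    split_ifs
    · exact le_refl _
    · exact (W_pos C L x y).le
  refine le_trans ?_ (Finset.single_le_sum (f := fun x => ∑ y, if x = y then 0 else W C L x y)
    (fun x _ => Finset.sum_nonneg fun y _ => h0 x y) (Finset.mem_univ x))
  refine le_trans ?_ (Finset.single_le_sum (f := fun y => if x = y then 0 else W C L x y)
    (fun y _ => h0 x y) (Finset.mem_univ y))
  simp [h]

lemma H_le_Phi2 (C : Conf V) (L : List (V × V)) {x y : V} (h : x ≠ y) : H C L x y ≤ Phi2 C L := by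
  unfold Phi2
  have h0 : ∀ x y : V, 0 ≤ (if x = y then 0 else H C L x y) := fun x y => by
    split_ifs
    · exact le_refl _
    · exact (H_pos C L x y).le
  refine le_trans ?_ (Finset.single_le_sum (f := fun x => ∑ y, if x = y then 0 else H C L x y)
    (fun x _ => Finset.sum_nonneg fun y _ => h0 x y) (Finset.mem_univ x))
  refine le_trans ?_ (Finset.single_le_sum (f := fun y => if x = y then 0 else H C L x y)
    (fun y _ => h0 x y) (Finset.mem_univ y))
  simp [h]

lemma Phi2_le (C : Conf V) (L : List (V × V)) : Phi2 C L ≤ (nn V)^2 := by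
  unfold Phi2
  calc ∑ x, ∑ y, (if x = y then 0 else H C L x y) ≤ ∑ x : V, ∑ y : V, (1:ℝ) :=
        Finset.sum_le_sum fun x _ => Finset.sum_le_sum fun y _ => by
          split_ifs
          · norm_num
          · exact H_le_one C L x y
    _ = (nn V)^2 := by simp [sq]

lemma Psi_nonneg (C : Conf V) (L : List (V × V)) : 0 ≤ Psi C L := by
  unfold Psi
  apply List.sum_nonneg
  intro a ha
  rw [List.mem_map] at ha
  obtain ⟨p, _, rfl⟩ := ha
  exact (W_pos C L _ _).le

lemma W_le_Psi (C : Conf V) (L : List (V × V)) {p : V × V} (hp : p ∈ L) : W C L p.1 p.2 ≤ Psi C L := by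
  unfold Psi
  apply List.single_le_sum
  · intro a ha
    rw [List.mem_map] at ha
    obtain ⟨p, _, rfl⟩ := ha
    exact (W_pos C L _ _).le
  · exact List.mem_map_of_mem hp

lemma Phi_pos (C : Conf V) (L : List (V × V)) (h : 1 < Fintype.card V) : 0 < Phi C L := by
  obtain ⟨x, y, hxy⟩ := Fintype.exists_pair_of_one_lt_card h
  exact lt_of_lt_of_le (W_pos C L x y) (W_le_Phi C L hxy)

lemma main_step (C : Conf V) (c : ℝ) (hc0 : 0 < c) (L : List (V × V)) (hnd : (vs L).Nodup) (hn' : 1000 * (C.K + 1) ≤ nn V)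
    (hL : 800 * L.length ≤ Fintype.card V) :
    ∃ u v, u ∉ vs L ∧ v ∉ vs L ∧ u ≠ v ∧ Lam C c ((u, v) :: L) ≤ 191/192 * Lam C c L := by
  classical
  by_contra hcon
  push Not at hcon
  have hK := C.hK
  have hn4 : (4000:ℝ) ≤ nn V := by linarith
  have hn1 : 1 < Fintype.card V := by
    have : (1:ℝ) < (Fintype.card V : ℝ) := by unfold nn at hn4; linarith
    exact_mod_cast this
  set n : ℝ := nn V with hndef
  set R : Finset V := univ.filter (fun z => z ∉ vs L) with hR
  have hRc : n - 2 * L.length ≤ (R.card : ℝ) := by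
    have h1 : Fintype.card V ≤ R.card + (vs L).length := by
      have : (univ : Finset V) ⊆ R ∪ (vs L).toFinset := by
        intro z _
        by_cases hz : z ∈ vs L
        · exact Finset.mem_union_right _ (by simpa using hz)
        · exact Finset.mem_union_left _ (by simp [hR, hz])
      calc Fintype.card V = (univ : Finset V).card := rfl
        _ ≤ (R ∪ (vs L).toFinset).card := Finset.card_le_card this
        _ ≤ R.card + (vs L).toFinset.card := Finset.card_union_le _ _
        _ ≤ _ := by gcongr; exact List.toFinset_card_le _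
    rw [vs_length] at h1
    have : (Fintype.card V : ℝ) ≤ R.card + (2 * L.length : ℕ) := by exact_mod_cast h1
    push_cast at this
    rw [hndef]; unfold nn; linarith
  have hLr : 800 * (L.length : ℝ) ≤ n := by rw [hndef]; unfold nn; exact_mod_cast hL
  have hRn : (399/400) * n ≤ (R.card : ℝ) := by linarith
  have hQc : ((R.offDiag.card : ℕ) : ℝ) = (R.card : ℝ) * R.card - R.card := by
    rw [Finset.offDiag_card, Nat.cast_sub (Nat.le_mul_self _)]; push_cast; ring
  set A : ℝ := 47/48 * n^2 + C.K * n with hA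
  have hlam : 0 < Lam C c L := by
    unfold Lam
    have := Psi_nonneg C L
    have h1 := Phi_pos C L hn1
    have := Phi2_nonneg C L
    have := Phi3_nonneg C L
    have h0 : 0 < nn V := by linarith
    have : 0 < 200 / (nn V)^2 * Phi C L := by positivity
    have : 0 ≤ c / (nn V)^2 * Phi2 C L := by positivity
    have : 0 ≤ c / (nn V) * Phi3 C L := by positivity
    linarith
  -- sum of new values
  have hsum : ∑ q ∈ R.offDiag, Lam C c ((q.1, q.2) :: L) ≤ A * Lam C c L + Phi C L := by
    have e : ∀ q : V × V, Lam C c ((q.1, q.2) :: L) =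
        (L.map (fun p => gS C p.1 p.2 q.1 q.2 * W C L p.1 p.2)).sum + gS C q.1 q.2 q.1 q.2 * W C L q.1 q.2
        + 200 / (nn V)^2 * (∑ x, ∑ y, (if x = y then 0 else W C L x y) * gS C x y q.1 q.2)
        + c / (nn V)^2 * (∑ x, ∑ y, (if x = y then 0 else H C L x y) * gH C x y q.1 q.2)
        + c / (nn V) * (∑ z, NW C L z * gN C z q.1 q.2) := by
      intro q
      unfold Lam
      rw [Psi_cons]
      have e1 : Phi C ((q.1, q.2) :: L) = ∑ x, ∑ y, (if x = y then 0 else W C L x y) * gS C x y q.1 q.2 := by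
        unfold Phi
        refine Finset.sum_congr rfl fun x _ => Finset.sum_congr rfl fun y _ => ?_
        rw [W_cons]; split_ifs <;> ring
      have e2 : Phi2 C ((q.1, q.2) :: L) = ∑ x, ∑ y, (if x = y then 0 else H C L x y) * gH C x y q.1 q.2 := by
        unfold Phi2
        refine Finset.sum_congr rfl fun x _ => Finset.sum_congr rfl fun y _ => ?_
        rw [H_cons]; split_ifs <;> ring
      have e3 : Phi3 C ((q.1, q.2) :: L) = ∑ z, NW C L z * gN C z q.1 q.2 := by
        unfold Phi3
        refine Finset.sum_congr rfl fun z _ => ?_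
        rw [NW_cons]; ring
      rw [e1, e2, e3]; ring
    rw [Finset.sum_congr rfl (fun q _ => e q)]
    rw [Finset.sum_add_distrib, Finset.sum_add_distrib, Finset.sum_add_distrib, Finset.sum_add_distrib,
      ← Finset.mul_sum, ← Finset.mul_sum, ← Finset.mul_sum]
    have t1 : ∑ q ∈ R.offDiag, (L.map (fun p => gS C p.1 p.2 q.1 q.2 * W C L p.1 p.2)).sum ≤ A * Psi C L := by
      refine list_avg R.offDiag L (fun p u v => gS C p.1 p.2 u v) (fun p => W C L p.1 p.2) A ?_ ?_
      · intro p hp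
        refine le_trans (sum_offDiag_le R (fun u v => gS C p.1 p.2 u v) fun u v => ?_) (sum_gS C (pair_ne hnd hp))
        linarith [(gS_bounds C p.1 p.2 u v).1]
      · intro p _; exact (W_pos C L _ _).le
    have t2 : ∑ q ∈ R.offDiag, gS C q.1 q.2 q.1 q.2 * W C L q.1 q.2 ≤ Phi C L := by
      have : ∀ q ∈ R.offDiag, gS C q.1 q.2 q.1 q.2 * W C L q.1 q.2 ≤ (if q.1 = q.2 then 0 else W C L q.1 q.2) := by
        intro q hq
        rw [if_neg (Finset.mem_offDiag.1 hq).2.2]
        have := gS_self C q.1 q.2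
        have := W_pos C L q.1 q.2
        nlinarith
      refine le_trans (Finset.sum_le_sum this) ?_
      refine sum_offDiag_le R (fun u v => if u = v then 0 else W C L u v) fun u v => ?_
      split_ifs
      · exact le_refl _
      · exact (W_pos C L _ _).le
    have t3 : ∑ q ∈ R.offDiag, (∑ x, ∑ y, (if x = y then 0 else W C L x y) * gS C x y q.1 q.2) ≤ A * Phi C L := by
      rw [Finset.sum_comm]
      unfold Phi
      rw [Finset.mul_sum]
      refine Finset.sum_le_sum fun x _ => ?_
      rw [Finset.sum_comm, Finset.mul_sum]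
      refine Finset.sum_le_sum fun y _ => ?_
      split_ifs with hxy
      · simp
      · rw [← Finset.mul_sum, mul_comm A]
        refine mul_le_mul_of_nonneg_left ?_ (W_pos C L x y).le
        refine le_trans (sum_offDiag_le R (fun u v => gS C x y u v) fun u v => ?_) (sum_gS C hxy)
        linarith [(gS_bounds C x y u v).1]
    have t4 : ∑ q ∈ R.offDiag, (∑ x, ∑ y, (if x = y then 0 else H C L x y) * gH C x y q.1 q.2) ≤ A * Phi2 C L := by
      rw [Finset.sum_comm]
      unfold Phi2
      rw [Finset.mul_sum]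
      refine Finset.sum_le_sum fun x _ => ?_
      rw [Finset.sum_comm, Finset.mul_sum]
      refine Finset.sum_le_sum fun y _ => ?_
      split_ifs with hxy
      · simp
      · rw [← Finset.mul_sum, mul_comm A]
        refine mul_le_mul_of_nonneg_left ?_ (H_pos C L x y).le
        refine le_trans (sum_offDiag_le R (fun u v => gH C x y u v) fun u v => ?_) (sum_gH C hxy)
        linarith [(gH_bounds C x y u v).1]
    have t5 : ∑ q ∈ R.offDiag, (∑ z, NW C L z * gN C z q.1 q.2) ≤ A * Phi3 C L := by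
      rw [Finset.sum_comm]
      unfold Phi3
      rw [Finset.mul_sum]
      refine Finset.sum_le_sum fun z _ => ?_
      rw [← Finset.mul_sum, mul_comm A]
      refine mul_le_mul_of_nonneg_left ?_ (NW_pos C L z).le
      refine le_trans (sum_offDiag_le R (fun u v => gN C z u v) fun u v => ?_) (sum_gN C z)
      linarith [(gN_bounds C z u v).1]
    have c5 : c / (nn V) * (∑ q ∈ R.offDiag, (∑ z, NW C L z * gN C z q.1 q.2))
        ≤ c / (nn V) * (A * Phi3 C L) := mul_le_mul_of_nonneg_left t5 (by positivity)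
    have c3 : 200 / (nn V)^2 * (∑ q ∈ R.offDiag, (∑ x, ∑ y, (if x = y then 0 else W C L x y) * gS C x y q.1 q.2))
        ≤ 200 / (nn V)^2 * (A * Phi C L) := mul_le_mul_of_nonneg_left t3 (by positivity)
    have c4 : c / (nn V)^2 * (∑ q ∈ R.offDiag, (∑ x, ∑ y, (if x = y then 0 else H C L x y) * gH C x y q.1 q.2))
        ≤ c / (nn V)^2 * (A * Phi2 C L) := mul_le_mul_of_nonneg_left t4 (by positivity)
    have fin : A * Lam C c L = A * Psi C L + 200 / (nn V)^2 * (A * Phi C L) + c / (nn V)^2 * (A * Phi2 C L)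
        + c / (nn V) * (A * Phi3 C L) := by
      unfold Lam; ring
    rw [fin]
    linarith
  have hPhi : Phi C L ≤ n^2/200 * Lam C c L := by
    have h1 : 200 / (nn V)^2 * Phi C L ≤ Lam C c L := by
      unfold Lam
      have := Psi_nonneg C L
      have := Phi2_nonneg C L
      have := Phi3_nonneg C L
      have : 0 ≤ c / (nn V)^2 * Phi2 C L := by positivity
      have : 0 ≤ c / (nn V) * Phi3 C L := by positivity
      linarith
    have hn2 : 0 < n := by linarith
    calc Phi C L = n^2/200 * (200 / n^2 * Phi C L) := by field_simp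
      _ ≤ _ := mul_le_mul_of_nonneg_left h1 (by positivity)
  have hlow : (R.offDiag.card : ℝ) * (191/192 * Lam C c L) ≤ ∑ q ∈ R.offDiag, Lam C c ((q.1, q.2) :: L) := by
    rw [← nsmul_eq_mul]
    refine Finset.card_nsmul_le_sum _ _ _ fun q hq => ?_
    rw [Finset.mem_offDiag] at hq
    refine (hcon q.1 q.2 ?_ ?_ hq.2.2).le
    · have := hq.1; simpa [hR] using this
    · have := hq.2.1; simpa [hR] using this
  have hkey : (R.offDiag.card : ℝ) * (191/192) ≤ A + n^2/200 := by
    have : ((R.offDiag.card : ℝ) * (191/192)) * Lam C c L ≤ (A + n^2/200) * Lam C c L := by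
      calc ((R.offDiag.card : ℝ) * (191/192)) * Lam C c L = (R.offDiag.card : ℝ) * (191/192 * Lam C c L) := by ring
        _ ≤ A * Lam C c L + Phi C L := le_trans hlow hsum
        _ ≤ A * Lam C c L + n^2/200 * Lam C c L := by linarith
        _ = _ := by ring
    exact le_of_mul_le_mul_right this hlam
  rw [hQc] at hkey
  have hr2 : (399/400 * n) * (399/400 * n - 1) ≤ (R.card : ℝ) * R.card - R.card := by
    have h1 : (0:ℝ) ≤ 399/400 * n - 1 := by linarith
    have : (R.card : ℝ) * R.card - R.card = (R.card : ℝ) * (R.card - 1) := by ring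
    rw [this]
    apply mul_le_mul hRn (by linarith) h1
    linarith
  rw [hA] at hkey
  nlinarith

lemma path (Inv Gd : List (V × V) → Prop) (K : ℕ)
    (hstep : ∀ L, Inv L → L.length < K → ∃ p, Inv (p :: L)) (hgood : ∀ L, Inv L → Gd L) :
    ∀ k L, Inv L → (∀ L', L' <:+ L → Gd L') → L.length + k = K →
      ∃ L₁, Inv L₁ ∧ L₁.length = K ∧ (∀ L', L' <:+ L₁ → Gd L') := by
  intro k
  induction k with
  | zero => intro L h1 h2 h3; exact ⟨L, h1, by omega, h2⟩
  | succ k ih =>
    intro L h1 h2 h3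
    obtain ⟨p, hp⟩ := hstep L h1 (by omega)
    refine ih (p :: L) hp ?_ (by simp; omega)
    intro L' hL'
    rw [List.suffix_cons_iff] at hL'
    rcases hL' with rfl | hL'
    · exact hgood _ hp
    · exact h2 L' hL'

/-- strong form of goodness -/
def SG (C : Conf V) (T : ℕ) (L : List (V × V)) : Prop := ∀ p ∈ L, S C L p.1 p.2 ≤ -(T:ℝ)

lemma S_le_of_W (C : Conf V) (L : List (V × V)) (x y : V) (T : ℕ) (h : W C L x y ≤ (2/3:ℝ)^T) :
    S C L x y ≤ -(T:ℝ) := by
  obtain ⟨k, hk1, hk2⟩ := S_W C L x y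
  rw [hk2] at h
  have h2 : (2/3:ℝ)^T = (3/2:ℝ)^(-(T:ℤ)) := by
    rw [zpow_neg, ← inv_zpow, zpow_natCast]; norm_num
  rw [h2] at h
  have h3 := (zpow_le_zpow_iff_right₀ (by norm_num : (1:ℝ) < 3/2)).1 h
  rw [hk1]
  have : (k:ℝ) ≤ ((-(T:ℤ) : ℤ) : ℝ) := by exact_mod_cast h3
  push_cast at this
  linarith

lemma SG_of_Lam (C : Conf V) (c : ℝ) (hc0 : 0 < c) (L : List (V × V)) (T : ℕ) (h : Lam C c L ≤ (2/3:ℝ)^T) : SG C T L := by
  intro p hp
  apply S_le_of_W
  have h1 := W_le_Psi C L hp
  have h2 := Phi_nonneg C L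
  have h3 := Phi2_nonneg C L
  have h3' := Phi3_nonneg C L
  have hn0 : 0 ≤ nn V := Nat.cast_nonneg _
  have h4 : 0 ≤ 200 / (nn V)^2 * Phi C L := by positivity
  have h5 : 0 ≤ c / (nn V)^2 * Phi2 C L := by positivity
  have h6 : 0 ≤ c / (nn V) * Phi3 C L := by positivity
  unfold Lam at h
  linarith

end TWK551
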