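import Pool.Agent.H551.tk.E
open Finset
namespace TWK551
universe w
variable {V : Type*} [Fintype V] [DecidableEq V]

noncomputable def DR (C : Conf V) (R : Finset V) (x y : V) : ℝ := ∑ z ∈ R, C.s z x * C.s z y

noncomputable def TT (C : Conf V) (Bd : V → V → ℝ) (lam : ℝ) (R : Finset V) : ℝ :=
  ∑ x, ∑ y, Real.exp (lam * (- DR C R x y - Bd x y))

lemma DR_erase (C : Conf V) (R : Finset V) {z : V} (hz : z ∈ R) (x y : V) :
    DR C (R.erase z) x y = DR C R x y - C.s z x * C.s z y := by
  unfold DR
  rw [← Finset.add_sum_erase R _ hz]; ring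

lemma TT_step (C : Conf V) (Bd : V → V → ℝ) (lam : ℝ) (hl : 0 < lam) (hB : ∀ x y, 0 ≤ Bd x y)
    (R : Finset V) (hR : R.Nonempty) :
    ∃ z ∈ R, TT C Bd lam (R.erase z) ≤ Real.exp (lam^2/2) * TT C Bd lam R + Real.exp lam * (nn V)^2 := by
  have hsum : ∑ z ∈ R, TT C Bd lam (R.erase z) ≤
      ∑ z ∈ R, (Real.exp (lam^2/2) * TT C Bd lam R + Real.exp lam * (nn V)^2) := by
    rw [Finset.sum_const, nsmul_eq_mul]
    have e : Real.exp (lam^2/2) * TT C Bd lam R + Real.exp lam * (nn V)^2 =
        ∑ x, ∑ y, (Real.exp (lam^2/2) * Real.exp (lam * (- DR C R x y - Bd x y)) + Real.exp lam) := by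
      unfold TT
      simp only [Finset.sum_add_distrib, ← Finset.mul_sum, Finset.sum_const, Finset.card_univ, nsmul_eq_mul]
      ring
    rw [e]
    unfold TT
    rw [Finset.sum_comm, Finset.mul_sum]
    refine Finset.sum_le_sum fun x _ => ?_
    rw [Finset.sum_comm, Finset.mul_sum]
    refine Finset.sum_le_sum fun y _ => ?_
    have hRc : (0:ℝ) ≤ R.card := Nat.cast_nonneg _
    by_cases hD : DR C R x y ≤ 0
    · have h1 : ∑ z ∈ R, Real.exp (lam * (- DR C (R.erase z) x y - Bd x y)) =
          Real.exp (lam * (- DR C R x y - Bd x y)) * (R.card * Real.cosh lam + DR C R x y * Real.sinh lam) := by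
        have h2 : ∀ z ∈ R, Real.exp (lam * (- DR C (R.erase z) x y - Bd x y)) =
            Real.exp (lam * (- DR C R x y - Bd x y)) * (Real.cosh lam + (C.s z x * C.s z y) * Real.sinh lam) := by
          intro z hz
          rw [DR_erase C R hz]
          have h3 : Real.exp (lam * (C.s z x * C.s z y)) = Real.cosh lam + (C.s z x * C.s z y) * Real.sinh lam := by
            have hpm : C.s z x * C.s z y = 1 ∨ C.s z x * C.s z y = -1 := by
              rcases C.pm z x with h | h <;> rcases C.pm z y with h' | h' <;> rw [h, h'] <;> norm_num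
            rcases hpm with h | h
            · rw [h, mul_one, one_mul, Real.cosh_add_sinh]
            · rw [h]
              have : lam * (-1) = -lam := by ring
              rw [this, ← Real.cosh_sub_sinh]; ring
          rw [← h3, ← Real.exp_add]
          congr 1; ring
        rw [Finset.sum_congr rfl h2, ← Finset.mul_sum, Finset.sum_add_distrib, Finset.sum_const, nsmul_eq_mul,
          ← Finset.sum_mul]
        rfl
      rw [h1]
      have h4 : R.card * Real.cosh lam + DR C R x y * Real.sinh lam ≤ R.card * Real.exp (lam^2/2) := by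
        have h5 : DR C R x y * Real.sinh lam ≤ 0 :=
          mul_nonpos_of_nonpos_of_nonneg hD (Real.sinh_nonneg_iff.2 hl.le)
        have h6 : (R.card : ℝ) * Real.cosh lam ≤ R.card * Real.exp (lam^2/2) :=
          mul_le_mul_of_nonneg_left (Real.cosh_le_exp_half_sq lam) hRc
        linarith
      have h7 := mul_le_mul_of_nonneg_left h4 (Real.exp_pos (lam * (- DR C R x y - Bd x y))).le
      have h8 : 0 ≤ (R.card : ℝ) * Real.exp lam := by positivity
      nlinarith
    · have h1 : ∑ z ∈ R, Real.exp (lam * (- DR C (R.erase z) x y - Bd x y)) ≤ ∑ z ∈ R, Real.exp lam := by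
        refine Finset.sum_le_sum fun z hz => ?_
        apply Real.exp_le_exp.2
        rw [DR_erase C R hz]
        have h2 : C.s z x * C.s z y ≤ 1 := by
          rcases C.pm z x with h | h <;> rcases C.pm z y with h' | h' <;> rw [h, h'] <;> norm_num
        have h3 := hB x y
        nlinarith
      refine le_trans h1 ?_
      rw [Finset.sum_const, nsmul_eq_mul]
      apply mul_le_mul_of_nonneg_left _ hRc
      have : 0 ≤ Real.exp (lam^2/2) * Real.exp (lam * (- DR C R x y - Bd x y)) := by positivity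
      linarith
  exact Finset.exists_le_of_sum_le hR hsum

noncomputable def TH (C : Conf V) (Bd : V → V → ℝ) (lam : ℝ) (R : Finset V) : ℝ :=
  TT C Bd lam R + Real.exp lam * (nn V)^2 / (Real.exp (lam^2/2) - 1)

lemma TH_step (C : Conf V) (Bd : V → V → ℝ) (lam : ℝ) (hl : 0 < lam) (hB : ∀ x y, 0 ≤ Bd x y)
    (R : Finset V) (hR : R.Nonempty) :
    ∃ z ∈ R, TH C Bd lam (R.erase z) ≤ Real.exp (lam^2/2) * TH C Bd lam R := by
  obtain ⟨z, hz, h⟩ := TT_step C Bd lam hl hB R hR
  refine ⟨z, hz, ?_⟩
  unfold TH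
  have hk : 0 < Real.exp (lam^2/2) - 1 := by
    have : (1:ℝ) < Real.exp (lam^2/2) := Real.one_lt_exp_iff.2 (by positivity)
    linarith
  have e : Real.exp (lam^2/2) * (TT C Bd lam R + Real.exp lam * (nn V)^2 / (Real.exp (lam^2/2) - 1)) =
      Real.exp (lam^2/2) * TT C Bd lam R + Real.exp lam * (nn V)^2 +
        Real.exp lam * (nn V)^2 / (Real.exp (lam^2/2) - 1) := by
    field_simp
    ring
  rw [e]
  linarith

def Rem (L : List (V × V)) : Finset V := univ \ (vs L).toFinset

lemma Rem_cons (u v : V) (L : List (V × V)) : Rem ((u, v) :: L) = ((Rem L).erase u).erase v := by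
  ext z
  simp only [Rem, vs_cons, List.toFinset_cons, Finset.mem_sdiff, Finset.mem_univ, Finset.mem_insert,
    Finset.mem_erase, List.mem_toFinset, true_and, not_or]
  tauto

lemma card_Rem {L : List (V × V)} (h : (vs L).Nodup) : (Rem L).card + 2 * L.length = Fintype.card V := by
  unfold Rem
  rw [← vs_length, ← List.toFinset_card_of_nodup h, Finset.card_sdiff_add_card_eq_card (Finset.subset_univ _)]
  rfl

lemma DR_Rem (C : Conf V) {L : List (V × V)} (h : (vs L).Nodup) (x y : V) :
    DR C (Rem L) x y = ∑ z, C.s z x * C.s z y - ((vs L).map (fun z => C.s z x * C.s z y)).sum := by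
  unfold DR Rem
  rw [Finset.sum_sdiff_eq_sub (Finset.subset_univ _), List.sum_toFinset _ h]

lemma S_formula (C : Conf V) (L : List (V × V)) (x y : V) :
    S C L x y = - Hc C L x y + ((vs L).map (fun z => C.s z x * C.s z y)).sum / 2 := by
  induction L with
  | nil => simp [S, Hc]
  | cons p L ih =>
    rw [S_cons, Hc_cons, ih, vs_cons, List.map_cons, List.map_cons, List.sum_cons, List.sum_cons]
    unfold fR; ring

lemma Hc_nonneg (C : Conf V) (L : List (V × V)) (x y : V) : 0 ≤ Hc C L x y := by
  obtain ⟨k, h, _⟩ := Hc_H C L x y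
  rw [h]; positivity

lemma Hc_append (C : Conf V) (M L : List (V × V)) (x y : V) : Hc C (M ++ L) x y = Hc C M x y + Hc C L x y := by
  simp [Hc]

theorem final_phase (C : Conf V) (Gd : List (V × V) → Prop) (T : ℕ) (hGd : ∀ L, SG C T L → Gd L)
    (L0 : List (V × V)) (hnd : (vs L0).Nodup) (w : ℝ) (hw : 2 * T + C.K ≤ w)
    (hS : ∀ x y, x ≠ y → S C L0 x y ≤ -w) (hH : ∀ x y, x ≠ y → w ≤ Hc C L0 x y)
    (lam : ℝ) (hl : 0 < lam)
    (hbig : Real.exp (lam^2/2) ^ (Fintype.card V) *
      ((nn V)^2 + Real.exp lam * (nn V)^2 / (Real.exp (lam^2/2) - 1)) < Real.exp (lam * w))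
    (K : ℕ) (hK : 2 * K ≤ Fintype.card V) (hL0 : L0.length ≤ K)
    (hgood : ∀ L', L' <:+ L0 → Gd L') :
    ∃ L, (vs L).Nodup ∧ L.length = K ∧ L0 <:+ L ∧ ∀ L', L' <:+ L → Gd L' := by
  set Bd : V → V → ℝ := fun x y => max 0 (- DR C (Rem L0) x y) with hBd
  have hB : ∀ x y, 0 ≤ Bd x y := fun x y => le_max_left _ _
  set κ := Real.exp (lam^2/2) with hκ
  have hκ1 : 1 < κ := Real.one_lt_exp_iff.2 (by positivity)
  set X : ℝ := Real.exp lam * (nn V)^2 / (κ - 1) with hX
  have hX0 : 0 ≤ X := div_nonneg (by positivity) (by linarith)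
  set Y0 : ℝ := (nn V)^2 + X with hY0
  have hY00 : 0 ≤ Y0 := by positivity
  set Inv : List (V × V) → Prop := fun L => (vs L).Nodup ∧ L0 <:+ L ∧
    TH C Bd lam (Rem L) ≤ κ ^ (vs L).length * Y0 with hInv
  have base : Inv L0 := by
    refine ⟨hnd, List.suffix_refl _, ?_⟩
    have h1 : TH C Bd lam (Rem L0) ≤ Y0 := by
      unfold TH
      have : TT C Bd lam (Rem L0) ≤ (nn V)^2 := by
        unfold TT
        calc ∑ x, ∑ y, Real.exp (lam * (- DR C (Rem L0) x y - Bd x y)) ≤ ∑ x : V, ∑ y : V, (1:ℝ) := by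
              refine Finset.sum_le_sum fun x _ => Finset.sum_le_sum fun y _ => ?_
              rw [← Real.exp_zero]
              apply Real.exp_le_exp.2
              have : - DR C (Rem L0) x y ≤ Bd x y := le_max_right _ _
              nlinarith
          _ = (nn V)^2 := by simp [sq]
      linarith
    have h2 : 1 ≤ κ ^ (vs L0).length := one_le_pow₀ hκ1.le
    nlinarith
  have hstep : ∀ L, Inv L → L.length < K → ∃ p, Inv (p :: L) := by
    intro L hL hlt
    obtain ⟨h1, h2, h3⟩ := hL
    have hc := card_Rem h1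
    have hne : (Rem L).Nonempty := by
      rw [← Finset.card_pos]; omega
    obtain ⟨u, hu, hu2⟩ := TH_step C Bd lam hl hB (Rem L) hne
    have hne2 : ((Rem L).erase u).Nonempty := by
      rw [← Finset.card_pos, Finset.card_erase_of_mem hu]; omega
    obtain ⟨v, hv, hv2⟩ := TH_step C Bd lam hl hB ((Rem L).erase u) hne2
    refine ⟨(u, v), ?_, h2.trans (List.suffix_cons _ _), ?_⟩
    · rw [vs_cons]
      simp only [List.nodup_cons, List.mem_cons, not_or]
      have huR : u ∉ vs L := by
        have := hu; simp only [Rem, Finset.mem_sdiff, Finset.mem_univ, List.mem_toFinset, true_and] at this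
        exact this
      have hvR := Finset.mem_erase.1 hv
      have hvR2 : v ∉ vs L := by
        have := hvR.2; simp only [Rem, Finset.mem_sdiff, Finset.mem_univ, List.mem_toFinset, true_and] at this
        exact this
      exact ⟨⟨fun h => hvR.1 h.symm, huR⟩, hvR2, h1⟩
    · rw [Rem_cons, vs_cons, List.length_cons, List.length_cons]
      calc TH C Bd lam (((Rem L).erase u).erase v) ≤ κ * TH C Bd lam ((Rem L).erase u) := hv2
        _ ≤ κ * (κ * TH C Bd lam (Rem L)) := by gcongr
        _ ≤ κ * (κ * (κ ^ (vs L).length * Y0)) := by gcongr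
        _ = κ ^ ((vs L).length + 1 + 1) * Y0 := by ring
  have hgd : ∀ L, Inv L → Gd L := by
    intro L hL
    apply hGd
    intro p hp
    obtain ⟨h1, h2, h3⟩ := hL
    have hne := pair_ne h1 hp
    set x := p.1 with hx
    set y := p.2 with hy
    have hlen : (vs L).length ≤ Fintype.card V := by
      have := card_Rem h1; rw [vs_length]; omega
    have hT : Real.exp (lam * (- DR C (Rem L) x y - Bd x y)) < Real.exp (lam * w) := by
      have t1 : Real.exp (lam * (- DR C (Rem L) x y - Bd x y)) ≤ TT C Bd lam (Rem L) := by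
        unfold TT
        refine le_trans ?_ (Finset.single_le_sum (f := fun x => ∑ y, Real.exp (lam * (- DR C (Rem L) x y - Bd x y)))
          (fun x _ => Finset.sum_nonneg fun y _ => (Real.exp_pos _).le) (Finset.mem_univ x))
        exact Finset.single_le_sum (f := fun y => Real.exp (lam * (- DR C (Rem L) x y - Bd x y)))
          (fun y _ => (Real.exp_pos _).le) (Finset.mem_univ y)
      have t2 : TT C Bd lam (Rem L) ≤ TH C Bd lam (Rem L) := by
        unfold TH; linarith
      have t3 : κ ^ (vs L).length * Y0 ≤ κ ^ (Fintype.card V) * Y0 :=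
        mul_le_mul_of_nonneg_right (pow_le_pow_right₀ hκ1.le hlen) hY00
      linarith
    have hD : - DR C (Rem L) x y < Bd x y + w := by
      have := (Real.exp_lt_exp.1 hT)
      have := lt_of_mul_lt_mul_left this hl.le
      linarith
    have hcor : ∑ z, C.s z x * C.s z y ≤ C.K := C.cor_le x y hne
    have e1 := S_formula C L x y
    have e2 := DR_Rem C h1 x y
    have e3 := S_formula C L0 x y
    have e4 := DR_Rem C hnd x y
    have hmono : Hc C L0 x y ≤ Hc C L x y := by
      obtain ⟨M, rfl⟩ := h2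
      rw [Hc_append]; linarith [Hc_nonneg C M x y]
    have s0 := hS x y hne
    have g0 := hH x y hne
    have hT0 : (0:ℝ) ≤ T := Nat.cast_nonneg _
    have hKK := C.hK
    have hfin : S C L x y ≤ -(T:ℝ) := by
      rcases max_cases 0 (- DR C (Rem L0) x y) with ⟨h, _⟩ | ⟨h, _⟩
      · have : Bd x y = 0 := h
        linarith
      · have : Bd x y = - DR C (Rem L0) x y := h
        linarith
    exact hfin
  obtain ⟨L, hL1, hL2, hL3⟩ := path Inv Gd K hstep hgd (K - L0.length) L0 base hgood (by omega)
  exact ⟨L, hL1.1, hL2, hL1.2.1, hL3⟩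

end TWK551
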