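import Pool.Agent.H551.tk.F
open Finset
namespace TWK551
universe w
variable {V : Type w} [Fintype V] [DecidableEq V]

lemma asym1 (j0 : ℕ) (Cc : ℝ) (hCc : 0 < Cc) : ∃ n1 : ℕ, ∀ n : ℕ, n1 ≤ n →
    Cc * (n:ℝ)^2 * (191/192)^(n/800 - j0) < (2/3:ℝ)^(n/80000) := by
  set Kc : ℝ := Cc * 80000^2 * (192/191)^j0 with hKc
  have hK0 : 0 < Kc := by positivity
  have ht := tendsto_pow_const_mul_const_pow_of_abs_lt_one 2 (r := (9/10:ℝ)) (by rw [abs_of_pos] <;> norm_num)
  have hev := ht.eventually (gt_mem_nhds (show (0:ℝ) < (9/10)/Kc by positivity))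
  obtain ⟨m1, hm1⟩ := Filter.eventually_atTop.1 hev
  refine ⟨80000 * (m1 + j0 + 4), fun n hn => ?_⟩
  set w := n/80000 with hw
  have hw1 : m1 + j0 + 4 ≤ w := by omega
  have hn1 : n < 80000 * (w + 1) := by omega
  have hn2 : 100 * w ≤ n/800 := by omega
  have hm := hm1 (w+1) (by omega)
  have h1 : (191/192:ℝ)^(n/800 - j0) ≤ (192/191)^j0 * (3/5)^w := by
    have a1 : (191/192:ℝ)^(n/800 - j0) ≤ (191/192)^(100*w - j0) :=
      pow_le_pow_of_le_one (by norm_num) (by norm_num) (by omega)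
    have a2 : (191/192:ℝ)^(100*w - j0) = (192/191)^j0 * (191/192)^(100*w) := by
      have : 100 * w = (100*w - j0) + j0 := by omega
      conv_rhs => rw [this, pow_add]
      rw [mul_comm ((191/192:ℝ)^(100*w-j0)), ← mul_assoc, ← mul_pow]
      norm_num
    have a3 : (191/192:ℝ)^(100*w) ≤ (3/5)^w := by
      rw [pow_mul]
      exact pow_le_pow_left₀ (by positivity) (by norm_num) w
    rw [a2] at a1
    refine le_trans a1 ?_
    gcongr
  have h2 : (n:ℝ)^2 ≤ (80000 * ((w:ℝ)+1))^2 := by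
    have : (n:ℝ) ≤ 80000 * ((w:ℝ)+1) := by
      have : (n:ℝ) < ((80000 * (w+1) : ℕ) : ℝ) := by exact_mod_cast hn1
      push_cast at this; linarith
    gcongr
  calc Cc * (n:ℝ)^2 * (191/192)^(n/800 - j0)
      ≤ Cc * (80000 * ((w:ℝ)+1))^2 * ((192/191)^j0 * (3/5)^w) := by gcongr
    _ = Kc * ((w:ℝ)+1)^2 * (3/5)^w := by rw [hKc]; ring
    _ = Kc * ((w:ℝ)+1)^2 * ((9/10)^w * (2/3)^w) := by rw [← mul_pow]; norm_num
    _ = (Kc * (((w:ℝ)+1)^2 * (9/10)^w)) * (2/3)^w := by ring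
    _ < 1 * (2/3)^w := by
        apply mul_lt_mul_of_pos_right _ (by positivity)
        push_cast at hm
        rw [lt_div_iff₀ hK0] at hm
        rw [pow_succ (9/10:ℝ) w] at hm
        nlinarith
    _ = (2/3)^w := one_mul _

lemma asym2 : ∃ n2 : ℕ, ∀ n : ℕ, n2 ≤ n →
    Real.exp ((1/80000:ℝ)^2/2) ^ n *
      ((n:ℝ)^2 + Real.exp (1/80000) * (n:ℝ)^2 / (Real.exp ((1/80000:ℝ)^2/2) - 1)) <
      Real.exp ((1/80000:ℝ) * ((n/80000 : ℕ) : ℝ)) := by
  set lam : ℝ := 1/80000 with hlam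
  have hl : 0 < lam := by rw [hlam]; norm_num
  set κ := Real.exp (lam^2/2) with hκ
  have hκ1 : 1 < κ := Real.one_lt_exp_iff.2 (by positivity)
  set C0 : ℝ := 1 + Real.exp lam / (κ - 1) with hC0
  have hκ2 : 0 < κ - 1 := by linarith
  have hC00 : 0 < C0 := by positivity
  have hr : |κ⁻¹| < 1 := by
    rw [abs_of_pos (by positivity)]
    exact inv_lt_one_of_one_lt₀ hκ1
  have ht := tendsto_pow_const_mul_const_pow_of_abs_lt_one 2 hr
  have hev := ht.eventually (gt_mem_nhds (show (0:ℝ) < 1/(C0 * Real.exp lam) by positivity))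
  obtain ⟨m1, hm1⟩ := Filter.eventually_atTop.1 hev
  refine ⟨m1, fun n hn => ?_⟩
  have hm := hm1 n hn
  have hfl : (n:ℝ) * lam - 1 ≤ ((n/80000 : ℕ) : ℝ) := by
    have : n < 80000 * (n/80000 + 1) := by omega
    have : (n:ℝ) < ((80000 * (n/80000 + 1) : ℕ) : ℝ) := by exact_mod_cast this
    push_cast at this
    rw [hlam]
    push_cast
    linarith
  have h1 : (κ * κ) ^ n * Real.exp (-lam) ≤ Real.exp (lam * ((n/80000 : ℕ) : ℝ)) := by
    have : κ * κ = Real.exp (lam^2) := by rw [hκ, ← Real.exp_add]; congr 1; ring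
    rw [this, ← Real.exp_nat_mul, ← Real.exp_add]
    apply Real.exp_le_exp.2
    have := mul_le_mul_of_nonneg_left hfl hl.le
    nlinarith
  refine lt_of_lt_of_le ?_ h1
  have h2 : κ ^ n * ((n:ℝ)^2 + Real.exp lam * (n:ℝ)^2 / (κ - 1)) = κ^n * (C0 * (n:ℝ)^2) := by
    rw [hC0]; ring
  rw [h2, mul_pow, mul_assoc]
  apply mul_lt_mul_of_pos_left _ (by positivity)
  rw [inv_pow, ← div_eq_mul_inv, div_lt_div_iff₀ (by positivity) (by positivity)] at hm
  rw [Real.exp_neg, ← div_eq_mul_inv, lt_div_iff₀ (Real.exp_pos _)]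
  linarith

lemma Nc_append (C : Conf V) (M L : List (V × V)) (z : V) : Nc C (M ++ L) z = Nc C M z + Nc C L z := by
  simp [Nc]

theorem comb (γ K0 : ℝ) (hγ : 0 < γ) (hK0 : 0 ≤ K0) (T : ℕ) : ∃ n0 : ℕ, ∀ (V : Type w) [Fintype V]
    [DecidableEq V] (C : Conf V), C.K ≤ K0 → n0 ≤ Fintype.card V →
    ∀ (L0 : List (V × V)) (P0 : Finset (V × V)), L0.length ≤ 1 → St C L0 P0 → γ * (nn V)^2 ≤ P0.card →
    ∀ (Gd : List (V × V) → Prop), (∀ L, SG C T L → Gd L) →
    (∀ M : List (V × V), (∀ p ∈ M, p ∈ P0) → ∀ L', L' <:+ M ++ L0 → SpGood C L' → Gd L') →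
    ∀ K : ℕ, 2 * K ≤ Fintype.card V → Fintype.card V ≤ 2 * K + 1 →
      ∃ L : List (V × V), (vs L).Nodup ∧ L.length = K ∧ (∀ L', L' <:+ L → Gd L') ∧ ∀ z, 1 ≤ Nc C L z := by
  set θ : ℝ := (2/3:ℝ)^T with hθ
  have hθ0 : 0 < θ := by positivity
  have hθ1 : θ ≤ 1 := pow_le_one₀ (by norm_num) (by norm_num)
  -- choice of J
  obtain ⟨m1, hm1⟩ := Filter.eventually_atTop.1 ((tendsto_pow_const_mul_const_pow_of_abs_lt_one 1 (r := (2/3:ℝ))
    (by rw [abs_of_pos] <;> norm_num)).eventually (gt_mem_nhds (show (0:ℝ) < θ/9 by positivity)))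
  obtain ⟨m2, hm2⟩ := Filter.eventually_atTop.1 ((tendsto_pow_const_mul_const_pow_of_abs_lt_one 0 (r := (47/48:ℝ))
    (by rw [abs_of_pos] <;> norm_num)).eventually (gt_mem_nhds (show (0:ℝ) < θ/1200 by positivity)))
  set J := m1 + m2 + 1 with hJ
  have hJ1 : ((J:ℝ)+1) * (2/3)^(J+1) < θ/9 := by
    have := hm1 (J+1) (by omega)
    push_cast at this
    simpa using this
  have hJ2 : (47/48:ℝ)^J < θ/1200 := by
    have := hm2 J (by omega)
    simpa using this
  set c : ℝ := θ/8 with hc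
  have hc0 : 0 < c := by positivity
  obtain ⟨n0, hn0⟩ := special.{w} J γ K0 hγ hK0 (θ/800) (by positivity)
  obtain ⟨n1, hn1⟩ := asym1 (J+1) (1 + 1/c) (by positivity)
  obtain ⟨n2, hn2⟩ := asym2
  obtain ⟨n3, hn3⟩ := exists_nat_ge (1000 * (K0 + 1))
  obtain ⟨n4, hn4⟩ := exists_nat_ge (2 * (T:ℝ) + K0)
  refine ⟨n0 + n1 + n2 + n3 + 80000 * (n4 + 1) + 800 * (J + 2), ?_⟩
  intro V _ _ C hCK hV L0 P0 hlen hSt hP Gd hSG hSp K hK1 hK2
  obtain ⟨M, P, hM, hSt', hMP, -, -, hPhi, hsuf⟩ := hn0 V C hCK (by omega) L0 P0 hlen hSt hP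
  have hn : 0 < nn V := by unfold nn; exact_mod_cast (by omega : 0 < Fintype.card V)
  have hCK' := C.hK
  set LJ := M ++ L0 with hLJ
  have hl1 : J ≤ LJ.length := by rw [hLJ, List.length_append, hM]; omega
  have hl2 : LJ.length ≤ J + 1 := by rw [hLJ, List.length_append, hM]; omega
  set l0 := LJ.length with hl0
  -- initial potential
  have hLam0 : Lam C c LJ ≤ θ := by
    have p1 : Psi C LJ ≤ θ/4 := by
      have h0 : Psi C LJ ≤ LJ.length • ((2/3:ℝ)^(J-1)) := by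
        unfold Psi
        have := List.sum_le_card_nsmul (LJ.map (fun p => W C LJ p.1 p.2)) ((2/3:ℝ)^(J-1)) ?_
        · rwa [List.length_map] at this
        · intro a ha
          rw [List.mem_map] at ha
          obtain ⟨p, hp, rfl⟩ := ha
          have h1 := hSt'.sp p hp
          obtain ⟨k, hk1, hk2⟩ := S_W C LJ p.1 p.2
          rw [hk1, ← hl0] at h1
          have hs : 0 ≤ (1 + C.s p.1 p.2)/2 := by
            rcases C.pm p.1 p.2 with h | h <;> rw [h] <;> norm_num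
          have hk : (k:ℝ) ≤ 1 - (l0:ℝ) := by linarith
          have hk' : k ≤ 1 - (l0:ℤ) := by exact_mod_cast hk
          have hk'' : k ≤ -((J - 1 : ℕ) : ℤ) := by omega
          rw [hk2]
          calc (3/2:ℝ)^k ≤ (3/2:ℝ)^(-((J - 1 : ℕ) : ℤ)) := zpow_le_zpow_right₀ (by norm_num) hk''
            _ = (2/3:ℝ)^(J-1) := by
                rw [zpow_neg, zpow_natCast, ← inv_pow]
                congr 1; norm_num
      refine le_trans h0 ?_
      rw [nsmul_eq_mul]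
      have h1 : (LJ.length : ℝ) ≤ (J:ℝ) + 1 := by exact_mod_cast hl2
      have h2 : (2/3:ℝ)^(J+1) = (2/3)^(J-1) * (4/9) := by
        have : J + 1 = (J - 1) + 2 := by omega
        rw [this, pow_add]; norm_num
      rw [h2] at hJ1
      have h3 : (LJ.length : ℝ) * (2/3)^(J-1) ≤ ((J:ℝ)+1) * (2/3)^(J-1) := by gcongr
      nlinarith
    have p2 : 200 / (nn V)^2 * Phi C LJ ≤ θ/2 := by
      calc 200 / (nn V)^2 * Phi C LJ ≤ 200 / (nn V)^2 * (((47/48)^J * (3/2) + θ/800) * (nn V)^2) := by gcongr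
        _ = 200 * ((47/48)^J * (3/2) + θ/800) := by field_simp
        _ ≤ θ/2 := by nlinarith
    have p3 : c / (nn V)^2 * Phi2 C LJ ≤ c := by
      calc c / (nn V)^2 * Phi2 C LJ ≤ c / (nn V)^2 * (nn V)^2 := by
            gcongr; exact Phi2_le C LJ
        _ = c := by field_simp
    have p4 : c / (nn V) * Phi3 C LJ ≤ c := by
      calc c / (nn V) * Phi3 C LJ ≤ c / (nn V) * (nn V) := by
            gcongr; exact Phi3_le C LJ
        _ = c := by field_simp
    unfold Lam; linarith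
  -- main phase
  set t0 := Fintype.card V / 800 with ht0
  set Inv : List (V × V) → Prop := fun L => (vs L).Nodup ∧ l0 ≤ L.length ∧
    Lam C c L ≤ θ * (191/192)^(L.length - l0) with hInv
  have hnR : (n3:ℝ) ≤ nn V := by unfold nn; exact_mod_cast (by omega : n3 ≤ Fintype.card V)
  have hstep : ∀ L, Inv L → L.length < t0 → ∃ p, Inv (p :: L) := by
    intro L hL hlt
    obtain ⟨h1, h2, h3⟩ := hL
    obtain ⟨u, v, hu, hv, huv, hl⟩ := main_step C c hc0 L h1 (by nlinarith) (by omega)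
    refine ⟨(u, v), ?_, ?_, ?_⟩
    · rw [vs_cons]
      simp only [List.nodup_cons, List.mem_cons, not_or]
      exact ⟨⟨huv, hu⟩, hv, h1⟩
    · rw [List.length_cons]; omega
    · rw [List.length_cons]
      have : L.length + 1 - l0 = (L.length - l0) + 1 := by omega
      rw [this, pow_succ]
      linarith
  have hgd : ∀ L, Inv L → Gd L := by
    intro L hL
    apply hSG
    apply SG_of_Lam C c hc0
    have h1 : (191/192:ℝ)^(L.length - l0) ≤ 1 := pow_le_one₀ (by norm_num) (by norm_num)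
    refine le_trans hL.2.2 ?_
    nlinarith
  obtain ⟨L1, hI, hl1', hg1⟩ := path Inv Gd t0 hstep hgd (t0 - l0) LJ
    ⟨hSt'.nd, le_refl _, by
      have h0 : LJ.length - l0 = 0 := by omega
      rw [h0, pow_zero, mul_one]; exact hLam0⟩ (fun L' hL' => hSp M hMP L' hL' (hsuf L' hL')) (by omega)
  -- consequences
  have hn1' := hn1 (Fintype.card V) (by omega)
  have hn2' := hn2 (Fintype.card V) (by omega)
  set wn := Fintype.card V / 80000 with hwn
  have hLL : Lam C c L1 ≤ (191/192)^(t0 - (J+1)) := by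
    have h1 := hI.2.2
    rw [hl1'] at h1
    have h2 : (191/192:ℝ)^(t0 - l0) ≤ (191/192)^(t0 - (J+1)) :=
      pow_le_pow_of_le_one (by norm_num) (by norm_num) (by omega)
    have h3 : 0 ≤ (191/192:ℝ)^(t0 - l0) := by positivity
    nlinarith
  have hpos1 : 0 ≤ Psi C L1 := Psi_nonneg C L1
  have hpos2 : 0 ≤ 200 / (nn V)^2 * Phi C L1 := mul_nonneg (by positivity) (Phi_nonneg C L1)
  have hpos3 : 0 ≤ c / (nn V)^2 * Phi2 C L1 := mul_nonneg (by positivity) (Phi2_nonneg C L1)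
  have hpos4 : 0 ≤ c / (nn V) * Phi3 C L1 := mul_nonneg (by positivity) (Phi3_nonneg C L1)
  set Q : ℝ := (191/192)^(t0 - (J+1)) with hQ
  have hq0 : (0:ℝ) < Q := by positivity
  have hic : 0 < 1/c := by positivity
  have hnn1 : 1 ≤ nn V := by unfold nn; exact_mod_cast (by omega : 1 ≤ Fintype.card V)
  have hP1 : Phi C L1 < (2/3:ℝ)^wn := by
    have : 200 / (nn V)^2 * Phi C L1 ≤ Q := by unfold Lam at hLL; linarith
    have h2 : Phi C L1 ≤ (nn V)^2 / 200 * Q := by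
      calc Phi C L1 = (nn V)^2 / 200 * (200 / (nn V)^2 * Phi C L1) := by field_simp
        _ ≤ _ := by gcongr
    have h3 : (nn V)^2 / 200 * Q ≤ (1 + 1/c) * (nn V)^2 * Q := by
      have : 0 ≤ (nn V)^2 * Q := by positivity
      nlinarith
    exact lt_of_le_of_lt (le_trans h2 h3) hn1'
  have hP2 : Phi2 C L1 < (2/3:ℝ)^wn := by
    have : c / (nn V)^2 * Phi2 C L1 ≤ Q := by unfold Lam at hLL; linarith
    have h2 : Phi2 C L1 ≤ (1/c) * (nn V)^2 * Q := by
      calc Phi2 C L1 = (1/c) * (nn V)^2 * (c / (nn V)^2 * Phi2 C L1) := by field_simp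
        _ ≤ _ := by gcongr
    have h3 : (1/c) * (nn V)^2 * Q ≤ (1 + 1/c) * (nn V)^2 * Q := by
      have : 0 ≤ (nn V)^2 * Q := by positivity
      nlinarith
    exact lt_of_le_of_lt (le_trans h2 h3) hn1'
  have hP3 : Phi3 C L1 < (2/3:ℝ)^wn := by
    have : c / (nn V) * Phi3 C L1 ≤ Q := by unfold Lam at hLL; linarith
    have h2 : Phi3 C L1 ≤ (1/c) * (nn V) * Q := by
      calc Phi3 C L1 = (1/c) * (nn V) * (c / (nn V) * Phi3 C L1) := by field_simp
        _ ≤ _ := by gcongr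
    have h3 : (1/c) * (nn V) * Q ≤ (1 + 1/c) * (nn V)^2 * Q := by
      have h4 : nn V ≤ (nn V)^2 := by nlinarith
      have h5 : (1/c) * (nn V) ≤ (1/c) * (nn V)^2 := by gcongr
      have h6 : (1/c) * (nn V)^2 ≤ (1 + 1/c) * (nn V)^2 := by nlinarith
      exact mul_le_mul_of_nonneg_right (le_trans h5 h6) hq0.le
    exact lt_of_le_of_lt (le_trans h2 h3) hn1'
  have hwn4 : 2 * (T:ℝ) + C.K ≤ (wn:ℝ) := by
    have : n4 ≤ wn := by omega
    have : (n4:ℝ) ≤ (wn:ℝ) := by exact_mod_cast this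
    linarith
  obtain ⟨L, hL1, hL2, hL3, hL4⟩ := final_phase C Gd T hSG L1 hI.1 (wn : ℝ) hwn4
    (fun x y hxy => S_le_of_W C L1 x y wn (lt_of_le_of_lt (W_le_Phi C L1 hxy) hP1).le)
    (fun x y hxy => by
      obtain ⟨k, hk1, hk2⟩ := Hc_H C L1 x y
      have h1 : H C L1 x y < (2/3:ℝ)^wn := lt_of_le_of_lt (H_le_Phi2 C L1 hxy) hP2
      rw [hk2] at h1
      have h3 := (pow_lt_pow_iff_right_of_lt_one₀ (by norm_num) (by norm_num)).1 h1
      rw [hk1]
      exact_mod_cast h3.le)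
    (1/80000) (by norm_num) hn2' K hK1 (by omega) hg1
  refine ⟨L, hL1, hL2, hL4, fun z => ?_⟩
  obtain ⟨M', rfl⟩ := hL3
  rw [Nc_append]
  obtain ⟨k, hk1, hk2⟩ := Nc_NW C L1 z
  obtain ⟨k', hk1', _⟩ := Nc_NW C M' z
  have h1 : NW C L1 z < (2/3:ℝ)^wn := lt_of_le_of_lt (NW_le_Phi3 C L1 z) hP3
  have h2 : (2/3:ℝ)^wn ≤ 1 := pow_le_one₀ (by norm_num) (by norm_num)
  have hk : 1 ≤ k := by
    by_contra h
    have : k = 0 := by omega
    rw [hk2, this] at h1
    norm_num at h1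
    linarith
  have hk0 : (1:ℝ) ≤ k := by exact_mod_cast hk
  have hk0' : (0:ℝ) ≤ k' := Nat.cast_nonneg _
  rw [hk1, hk1']
  linarith

end TWK551
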