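import Pool.Agent.H551.tk.G
import Pool.Agent.H551.tw.T
open Finset
open TWC551 (EdgeCol Trigraph mergeCol HasSeq twinWidth PInv hasSeq_small redDeg_lt)
namespace TWK551
universe w

section graphs
variable {V : Type*} [Fintype V] [DecidableEq V] (G : SimpleGraph V) [DecidableRel G.Adj]

noncomputable def sg (u x : V) : ℝ := if G.Adj u x then 1 else -1

lemma sg_symm (u x : V) : sg G u x = sg G x u := by
  unfold sg; simp only [G.adj_comm]

lemma sg_pm (u x : V) : sg G u x = 1 ∨ sg G u x = -1 := by
  unfold sg; split_ifs <;> simp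

/-- number of vertices different from `x` and `y` that are adjacent to exactly one of them -/
def dif (x y : V) : ℕ := (univ.filter (fun z => z ≠ x ∧ z ≠ y ∧ ¬ (G.Adj x z ↔ G.Adj y z))).card

lemma sum_cor {x y : V} (hxy : x ≠ y) :
    ∑ z, sg G z x * sg G z y = nn V - 2 * dif G x y - 2 - 2 * sg G x y := by
  classical
  have hi : ∀ z, sg G z x * sg G z y = 1 - 2 * ((1 - sg G z x * sg G z y)/2) := fun z => by ring
  have h1 : ∑ z, (1 - sg G z x * sg G z y)/2 = dif G x y + (1 + sg G x y) := by
    rw [← Finset.add_sum_erase univ _ (Finset.mem_univ x),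
      ← Finset.add_sum_erase (univ.erase x) _ (Finset.mem_erase.2 ⟨hxy.symm, Finset.mem_univ y⟩)]
    have e1 : sg G x x = -1 := by unfold sg; simp
    have e2 : sg G y y = -1 := by unfold sg; simp
    rw [e1, e2, sg_symm G y x]
    have e3 : ∑ z ∈ (univ.erase x).erase y, (1 - sg G z x * sg G z y)/2 = dif G x y := by
      have : ∀ z ∈ (univ.erase x).erase y, (1 - sg G z x * sg G z y)/2 =
          if ¬ (G.Adj x z ↔ G.Adj y z) then (1:ℝ) else 0 := by
        intro z _
        have a1 : sg G z x = if G.Adj x z then 1 else -1 := by rw [sg_symm]; rfl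
        have a2 : sg G z y = if G.Adj y z then 1 else -1 := by rw [sg_symm]; rfl
        rw [a1, a2]
        by_cases h1 : G.Adj x z <;> by_cases h2 : G.Adj y z <;> simp [h1, h2] <;> norm_num
      rw [Finset.sum_congr rfl this, ← Finset.sum_filter]
      simp only [Finset.sum_const, nsmul_eq_mul, mul_one]
      unfold dif
      congr 2
      ext z
      simp only [Finset.mem_filter, Finset.mem_erase, Finset.mem_univ, true_and, and_true]
      tauto
    rw [e3]; ring
  rw [Finset.sum_congr rfl (fun z _ => hi z), Finset.sum_sub_distrib, ← Finset.mul_sum, h1]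
  simp only [Finset.sum_const, Finset.card_univ, nsmul_eq_mul, mul_one]
  ring

noncomputable def toConf (K : ℕ) (h : ∀ x y : V, x ≠ y → |2 * (dif G x y : ℝ) - (nn V - 1)| ≤ 2 * K) : Conf V where
  s := sg G
  pm := sg_pm G
  symm := sg_symm G
  dg x := by unfold sg; simp
  K := 2 * K + 3
  hK := by have : (0:ℝ) ≤ K := Nat.cast_nonneg _; linarith
  cor_le x y hxy := by
    rw [sum_cor G hxy]
    have := abs_le.1 (h x y hxy)
    rcases sg_pm G x y with e | e <;> rw [e] <;> linarith
  cor_ge x y hxy := by
    rw [sum_cor G hxy]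
    have := abs_le.1 (h x y hxy)
    rcases sg_pm G x y with e | e <;> rw [e] <;> linarith

def tri : List (V × V) → Trigraph V
  | [] => Trigraph.ofGraph G
  | p :: L => (tri L).contract p.1 p.2

def PL : List (V × V) → V → Finset V
  | [], a => {a}
  | p :: L, a => if a = p.1 then PL L p.1 ∪ PL L p.2 else PL L a

lemma mem_tri (L : List (V × V)) (z : V) : z ∈ (tri G L).verts ↔ z ∉ L.map Prod.snd := by
  induction L with
  | nil => simp [tri, Trigraph.ofGraph]
  | cons p L ih =>
    show z ∈ (tri G L).verts.erase p.2 ↔ _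
    rw [Finset.mem_erase, ih]
    simp

lemma mem_vs (L : List (V × V)) (z : V) : z ∈ vs L ↔ z ∈ L.map Prod.fst ∨ z ∈ L.map Prod.snd := by
  induction L with
  | nil => simp
  | cons p L ih =>
    rw [vs_cons, List.map_cons, List.map_cons, List.mem_cons, List.mem_cons, ih, List.mem_cons, List.mem_cons]
    tauto

lemma PL_unmerged (L : List (V × V)) (z : V) (h : z ∉ L.map Prod.fst) : PL L z = {z} := by
  induction L with
  | nil => rfl
  | cons p L ih =>
    rw [List.map_cons, List.mem_cons, not_or] at h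
    show (if z = p.1 then PL L p.1 ∪ PL L p.2 else PL L z) = {z}
    rw [if_neg h.1, ih h.2]

lemma PL_merged (L : List (V × V)) (h : (vs L).Nodup) {p : V × V} (hp : p ∈ L) : PL L p.1 = {p.1, p.2} := by
  induction L with
  | nil => simp at hp
  | cons q L ih =>
    rw [vs_cons, List.nodup_cons, List.nodup_cons] at h
    have hq1 : q.1 ∉ vs L := fun hh => h.1 (List.mem_cons_of_mem _ hh)
    have hq2 : q.2 ∉ vs L := h.2.1
    rw [mem_vs, not_or] at hq1 hq2
    show (if p.1 = q.1 then PL L q.1 ∪ PL L q.2 else PL L p.1) = _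
    rcases List.mem_cons.1 hp with rfl | hp
    · rw [if_pos rfl, PL_unmerged L _ hq1.1, PL_unmerged L _ hq2.1]; rfl
    · rw [if_neg, ih h.2.2 hp]
      intro he
      exact hq1.1 (he ▸ List.mem_map_of_mem hp)

lemma inv_tri (L : List (V × V)) (h : (vs L).Nodup) : PInv G (tri G L) (PL L) := by
  induction L with
  | nil =>
    constructor
    · intro a _ b _ _
      simp only [tri, Trigraph.ofGraph, PL, Finset.mem_singleton, forall_eq]
      split_ifs with h1 <;> simp [h1]
    · intro a _ b _ _
      simp only [tri, Trigraph.ofGraph, PL, Finset.mem_singleton, forall_eq]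
      split_ifs with h1 <;> simp [h1]
  | cons p L ih =>
    rw [vs_cons, List.nodup_cons, List.nodup_cons] at h
    have hq1 : p.1 ∉ vs L := fun hh => h.1 (List.mem_cons_of_mem _ hh)
    have hq2 : p.2 ∉ vs L := h.2.1
    have hne : p.1 ≠ p.2 := fun hh => h.1 (hh ▸ List.mem_cons_self)
    rw [mem_vs, not_or] at hq1 hq2
    exact (ih h.2.2).contract ((mem_tri G L _).2 hq1.2) ((mem_tri G L _).2 hq2.2) hne

lemma red_not {T : Trigraph V} {P : V → Finset V} (hI : PInv G T P) {a b : V} (ha : a ∈ T.verts)
    (hb : b ∈ T.verts) (hab : a ≠ b) (hr : T.col a b = EdgeCol.red) :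
    (¬ ∀ p ∈ P a, ∀ q ∈ P b, G.Adj p q) ∧ (¬ ∀ p ∈ P a, ∀ q ∈ P b, ¬ G.Adj p q) := by
  constructor
  · intro h
    have := (hI.bl a ha b hb hab).2 h
    rw [hr] at this; exact absurd this (by decide)
  · intro h
    have := (hI.ab a ha b hb hab).2 h
    rw [hr] at this; exact absurd this (by decide)

lemma card_tri (L : List (V × V)) (h : (vs L).Nodup) : (tri G L).verts.card + L.length = Fintype.card V := by
  induction L with
  | nil => simp [tri, Trigraph.ofGraph]
  | cons p L ih =>
    rw [vs_cons, List.nodup_cons, List.nodup_cons] at h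
    have hq2 : p.2 ∉ vs L := h.2.1
    rw [mem_vs, not_or] at hq2
    have hm : p.2 ∈ (tri G L).verts := (mem_tri G L _).2 hq2.2
    have h1 := ih h.2.2
    show ((tri G L).verts.erase p.2).card + (p :: L).length = _
    rw [Finset.card_erase_of_mem hm, List.length_cons]
    have : 0 < (tri G L).verts.card := Finset.card_pos.2 ⟨_, hm⟩
    omega

lemma length_filter_sum (L : List (V × V)) (f : V × V → ℝ) (pr : V × V → Prop) [DecidablePred pr]
    (h1 : ∀ p ∈ L, pr p → f p = 1) (h0 : ∀ p ∈ L, 0 ≤ f p) :
    ((L.filter (fun p => decide (pr p))).length : ℝ) ≤ (L.map f).sum := by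
  induction L with
  | nil => simp
  | cons p L ih =>
    have ih' := ih (fun p hp => h1 p (List.mem_cons_of_mem _ hp)) (fun p hp => h0 p (List.mem_cons_of_mem _ hp))
    rw [List.filter_cons, List.map_cons, List.sum_cons]
    by_cases hp : pr p
    · rw [if_pos (by simpa using hp), List.length_cons, h1 p List.mem_cons_self hp]
      push_cast; linarith
    · rw [if_neg (by simpa using hp)]
      linarith [h0 p List.mem_cons_self]

lemma nh_vals (C : Conf V) (x y u v : V) : nh C x y u v = 0 ∨ nh C x y u v = 1 := by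
  unfold nh
  rcases C.pm u x with h1 | h1 <;> rcases C.pm u y with h2 | h2 <;>
  rcases C.pm v x with h3 | h3 <;> rcases C.pm v y with h4 | h4 <;>
  rw [h1, h2, h3, h4] <;> norm_num

lemma nh_tri (C : Conf V) (x y u v : V) : (C.s u x = 1 ∧ C.s u y = 1 ∧ C.s v x = 1 ∧ C.s v y = 1) ∨
    (C.s u x = -1 ∧ C.s u y = -1 ∧ C.s v x = -1 ∧ C.s v y = -1) ∨ nh C x y u v = 1 := by
  unfold nh
  rcases C.pm u x with e1 | e1 <;> rcases C.pm u y with e2 | e2 <;>
  rcases C.pm v x with e3 | e3 <;> rcases C.pm v y with e4 | e4 <;>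
  rw [e1, e2, e3, e4] <;> norm_num

lemma nh_one (C : Conf V) (x y u v : V) (h1 : ¬ (C.s u x = 1 ∧ C.s u y = 1 ∧ C.s v x = 1 ∧ C.s v y = 1))
    (h2 : ¬ (C.s u x = -1 ∧ C.s u y = -1 ∧ C.s v x = -1 ∧ C.s v y = -1)) : nh C x y u v = 1 := by
  rcases nh_tri C x y u v with h | h | h
  · exact absurd h h1
  · exact absurd h h2
  · exact h

lemma nh_self (C : Conf V) (x y : V) : nh C x y x y = (1 + C.s x y)/2 := by
  unfold nh
  rw [C.dg x, C.dg y, C.symm y x]
  rcases C.pm x y with h | h <;> rw [h] <;> norm_num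


/-- bound on the red degree of a vertex that has not been merged -/
lemma red_unmerged (C : Conf V) (hCs : ∀ a b, C.s a b = sg G a b) (L : List (V × V))
    (hnd : (vs L).Nodup) (x : V) (hx : x ∈ (tri G L).verts) (hxf : x ∉ L.map Prod.fst) :
    ((tri G L).redDeg x : ℝ) ≤ L.length - Nc C L x := by
  classical
  have hI := inv_tri G L hnd
  set pr : V × V → Prop := fun q => C.s q.1 x * C.s q.2 x = -1 with hpr
  have hsub : ((tri G L).verts.filter (fun y => y ≠ x ∧ (tri G L).col x y = EdgeCol.red)) ⊆
      ((L.filter (fun q => decide (pr q))).map Prod.fst).toFinset := by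
    intro y hy
    rw [Finset.mem_filter] at hy
    obtain ⟨r1, r2⟩ := red_not G hI hx hy.1 (fun h => hy.2.1 h.symm) hy.2.2
    rw [PL_unmerged L x hxf] at r1 r2
    rw [List.mem_toFinset, List.mem_map]
    by_cases hyf : y ∈ L.map Prod.fst
    · obtain ⟨q, hq, hqy⟩ := List.mem_map.1 hyf
      subst hqy
      rw [PL_merged L hnd hq] at r1 r2
      refine ⟨q, ?_, rfl⟩
      rw [List.mem_filter]
      refine ⟨hq, ?_⟩
      rw [decide_eq_true_eq, hpr]
      simp only [Finset.mem_insert, Finset.mem_singleton, forall_eq, forall_eq_or_imp] at r1 r2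
      show C.s q.1 x * C.s q.2 x = -1
      rw [hCs, hCs, sg_symm G q.1 x, sg_symm G q.2 x]
      unfold sg
      by_cases b1 : G.Adj x q.1 <;> by_cases b2 : G.Adj x q.2
      · exact absurd ⟨b1, b2⟩ r1
      · simp [b1, b2]
      · simp [b1, b2]
      · exact absurd ⟨b1, b2⟩ r2
    · exfalso
      rw [PL_unmerged L y hyf] at r1 r2
      simp only [Finset.mem_singleton, forall_eq] at r1 r2
      exact r2 r1
  have hcard : ((tri G L).redDeg x : ℝ) ≤ (L.filter (fun q => decide (pr q))).length := by
    have : (tri G L).redDeg x ≤ (L.filter (fun q => decide (pr q))).length := by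
      unfold Trigraph.redDeg
      refine le_trans (Finset.card_le_card hsub) (le_trans (List.toFinset_card_le _) ?_)
      rw [List.length_map]
    exact_mod_cast this
  refine le_trans hcard ?_
  have e1 := length_filter_sum L (fun q => 1 - (1 + C.s q.1 x * C.s q.2 x)/2) pr
    (fun q _ hq => by
      have : C.s q.1 x * C.s q.2 x = -1 := hq
      rw [this]; norm_num)
    (fun q _ => by
      rcases C.pm q.1 x with e | e <;> rcases C.pm q.2 x with e' | e' <;> rw [e, e'] <;> norm_num)
  refine le_trans e1 (le_of_eq ?_)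
  have e3 : ∀ L' : List (V × V), (L'.map (fun q => 1 - (1 + C.s q.1 x * C.s q.2 x)/2)).sum =
      L'.length - Nc C L' x := by
    intro L'
    induction L' with
    | nil => simp [Nc]
    | cons q L' ih => rw [List.map_cons, List.sum_cons, ih, Nc_cons, List.length_cons]; push_cast; ring
  exact e3 L

/-- bound on the red degree of a merged vertex -/
lemma red_merged (C : Conf V) (hCs : ∀ a b, C.s a b = sg G a b) (L : List (V × V))
    (hnd : (vs L).Nodup) (p : V × V) (hp : p ∈ L) :
    ((tri G L).redDeg p.1 : ℝ) ≤ dif G p.1 p.2 + S C L p.1 p.2 + (1 + C.s p.1 p.2)/2 := by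
  classical
  have hadj1 : ∀ a b, G.Adj a b → C.s a b = 1 := fun a b hab => by rw [hCs]; unfold sg; rw [if_pos hab]
  have hadj0 : ∀ a b, ¬ G.Adj a b → C.s a b = -1 := fun a b hab => by rw [hCs]; unfold sg; rw [if_neg hab]
  have hI := inv_tri G L hnd
  have hx : p.1 ∈ (tri G L).verts := by
    rw [mem_tri]
    -- first components are not second components
    have key : ∀ L' : List (V × V), (vs L').Nodup → ∀ q ∈ L', q.1 ∉ L'.map Prod.snd := by
      intro L'
      induction L' with
      | nil => intro _ q hq; simp at hq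
      | cons r L' ih =>
        intro hn q hq
        rw [vs_cons, List.nodup_cons, List.nodup_cons] at hn
        have hr1 : r.1 ∉ vs L' := fun hh => hn.1 (List.mem_cons_of_mem _ hh)
        have hr2 : r.2 ∉ vs L' := hn.2.1
        have hne : r.1 ≠ r.2 := fun hh => hn.1 (hh ▸ List.mem_cons_self)
        rw [mem_vs, not_or] at hr1 hr2
        rw [List.map_cons, List.mem_cons, not_or]
        rcases List.mem_cons.1 hq with rfl | hq
        · exact ⟨hne, hr1.2⟩
        · refine ⟨fun h => hr2.1 (h ▸ List.mem_map_of_mem hq), ih hn.2.2 q hq⟩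
    exact key L hnd p hp
  have hne := pair_ne hnd hp
  set A1 : Finset V := (Rem L).filter (fun z => C.s z p.1 * C.s z p.2 = -1) with hA1
  set pr : V × V → Prop := fun q => nh C p.1 p.2 q.1 q.2 = 1 with hpr
  set A2 : List V := (((L.erase p).filter (fun q => decide (pr q))).map Prod.fst) with hA2
  have hsub : ((tri G L).verts.filter (fun y => y ≠ p.1 ∧ (tri G L).col p.1 y = EdgeCol.red)) ⊆
      A1 ∪ A2.toFinset := by
    intro y hy
    rw [Finset.mem_filter] at hy
    obtain ⟨r1, r2⟩ := red_not G hI hx hy.1 (fun h => hy.2.1 h.symm) hy.2.2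
    rw [PL_merged L hnd hp] at r1 r2
    by_cases hyf : y ∈ L.map Prod.fst
    · apply Finset.mem_union_right
      obtain ⟨q, hq, hqy⟩ := List.mem_map.1 hyf
      subst hqy
      rw [PL_merged L hnd hq] at r1 r2
      rw [hA2, List.mem_toFinset, List.mem_map]
      refine ⟨q, ?_, rfl⟩
      rw [List.mem_filter]
      have hqp : q ≠ p := fun h => hy.2.1 (by rw [h])
      refine ⟨(List.mem_erase_of_ne hqp).2 hq, ?_⟩
      rw [decide_eq_true_eq, hpr]
      refine nh_one C _ _ _ _ ?_ ?_
      · rintro ⟨a1, a2, a3, a4⟩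
        apply r1
        have conv : ∀ a b, C.s b a = 1 → G.Adj a b := by
          intro a b hab
          by_contra hh
          have := hadj0 b a (fun h => hh h.symm)
          rw [this] at hab; norm_num at hab
        intro a ha b hb
        rw [Finset.mem_insert, Finset.mem_singleton] at ha hb
        rcases ha with rfl | rfl <;> rcases hb with rfl | rfl
        · exact conv _ _ a1
        · exact conv _ _ a3
        · exact conv _ _ a2
        · exact conv _ _ a4
      · rintro ⟨a1, a2, a3, a4⟩
        apply r2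
        have conv : ∀ a b, C.s b a = -1 → ¬ G.Adj a b := by
          intro a b hab hh
          have := hadj1 b a hh.symm
          rw [this] at hab; norm_num at hab
        intro a ha b hb
        rw [Finset.mem_insert, Finset.mem_singleton] at ha hb
        rcases ha with rfl | rfl <;> rcases hb with rfl | rfl
        · exact conv _ _ a1
        · exact conv _ _ a3
        · exact conv _ _ a2
        · exact conv _ _ a4
    · apply Finset.mem_union_left
      rw [PL_unmerged L y hyf] at r1 r2
      have hyv : y ∉ vs L := by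
        rw [mem_vs, not_or]
        exact ⟨hyf, (mem_tri G L y).1 hy.1⟩
      rw [hA1, Finset.mem_filter]
      refine ⟨by simp [Rem, hyv], ?_⟩
      simp only [Finset.mem_insert, Finset.mem_singleton, forall_eq, forall_eq_or_imp] at r1 r2
      by_cases b1 : G.Adj p.1 y <;> by_cases b2 : G.Adj p.2 y
      · exact absurd ⟨b1, b2⟩ r1
      · rw [hadj1 y p.1 b1.symm, hadj0 y p.2 (fun h => b2 h.symm)]; norm_num
      · rw [hadj0 y p.1 (fun h => b1 h.symm), hadj1 y p.2 b2.symm]; norm_num
      · exact absurd ⟨b1, b2⟩ r2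
  have hcard : ((tri G L).redDeg p.1 : ℝ) ≤ A1.card + ((L.erase p).filter (fun q => decide (pr q))).length := by
    have : (tri G L).redDeg p.1 ≤ A1.card + ((L.erase p).filter (fun q => decide (pr q))).length := by
      unfold Trigraph.redDeg
      refine le_trans (Finset.card_le_card hsub) (le_trans (Finset.card_union_le _ _) ?_)
      refine Nat.add_le_add_left (le_trans (List.toFinset_card_le _) ?_) _
      rw [hA2, List.length_map]
    exact_mod_cast this
  have hA1c : (A1.card : ℝ) = ((Rem L).card - DR C (Rem L) p.1 p.2) / 2 := by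
    rw [hA1, Finset.card_filter]
    push_cast
    have : ∀ z ∈ Rem L, (if C.s z p.1 * C.s z p.2 = -1 then (1:ℝ) else 0) = (1 - C.s z p.1 * C.s z p.2)/2 := by
      intro z _
      rcases C.pm z p.1 with e1 | e1 <;> rcases C.pm z p.2 with e2 | e2 <;> rw [e1, e2] <;> norm_num
    rw [Finset.sum_congr rfl this, ← Finset.sum_div, Finset.sum_sub_distrib]
    simp [DR]
  have hA2c : (((L.erase p).filter (fun q => decide (pr q))).length : ℝ) ≤
      L.length - Hc C L p.1 p.2 - (1 + C.s p.1 p.2)/2 := by
    have e1 := length_filter_sum (L.erase p) (fun q => nh C p.1 p.2 q.1 q.2) pr (fun q _ hq => hq)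
      (fun q _ => by rcases nh_vals C p.1 p.2 q.1 q.2 with h | h <;> rw [h] <;> norm_num)
    refine le_trans e1 ?_
    have e2 : (L.map (fun q => nh C p.1 p.2 q.1 q.2)).sum =
        nh C p.1 p.2 p.1 p.2 + ((L.erase p).map (fun q => nh C p.1 p.2 q.1 q.2)).sum := by
      have := (List.perm_cons_erase hp).map (fun q => nh C p.1 p.2 q.1 q.2)
      rw [this.sum_eq]; simp
    have e3 : ∀ L' : List (V × V), (L'.map (fun q => nh C p.1 p.2 q.1 q.2)).sum =
        L'.length - Hc C L' p.1 p.2 := by
      intro L'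
      induction L' with
      | nil => simp [Hc]
      | cons q L' ih => rw [List.map_cons, List.sum_cons, ih, Hc_cons, List.length_cons]; push_cast; ring
    rw [e3 L, nh_self] at e2
    linarith
  have hcor : ∑ z, C.s z p.1 * C.s z p.2 = nn V - 2 * dif G p.1 p.2 - 2 - 2 * C.s p.1 p.2 := by
    have := sum_cor G hne
    simp only [hCs]; exact this
  have f1 := S_formula C L p.1 p.2
  have f2 := DR_Rem C hnd p.1 p.2
  have f4 : ((Rem L).card : ℝ) + 2 * L.length = nn V := by
    have := card_Rem hnd
    unfold nn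
    exact_mod_cast this
  rw [hcor] at f2
  linarith

lemma hasSeq_small' (k : ℕ) (T : Trigraph V) (hne : T.verts.Nonempty) (h : ∀ x ∈ T.verts, T.redDeg x ≤ k)
    (hc : T.verts.card ≤ k + 2) : HasSeq k T := by
  by_cases h1 : T.verts.card = 1
  · exact HasSeq.last T h1 h
  · have h0 : 0 < T.verts.card := Finset.card_pos.2 hne
    obtain ⟨u, hu, v, hv, huv⟩ := Finset.one_lt_card.1 (by omega : 1 < T.verts.card)
    refine HasSeq.step T u v hu hv huv h (hasSeq_small k (T.verts.card - 2) _ ?_ (by omega))
    show (T.verts.erase v).card = _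
    rw [Finset.card_erase_of_mem hv]; omega

def Gdk (C : Conf V) (k : ℕ) (L : List (V × V)) : Prop :=
  ∀ p ∈ L, (dif G p.1 p.2 : ℝ) + S C L p.1 p.2 + (1 + C.s p.1 p.2)/2 ≤ k

lemma red_all (C : Conf V) (hCs : ∀ a b, C.s a b = sg G a b) (L : List (V × V)) (k : ℕ)
    (hnd : (vs L).Nodup) (hG : Gdk G C k L) (hN : ∀ z, (L.length : ℝ) - Nc C L z ≤ k) :
    ∀ x ∈ (tri G L).verts, (tri G L).redDeg x ≤ k := by
  intro x hx
  by_cases hxf : x ∈ L.map Prod.fst
  · obtain ⟨p, hp, rfl⟩ := List.mem_map.1 hxf
    have h1 := red_merged G C hCs L hnd p hp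
    have h2 := hG p hp
    exact_mod_cast le_trans h1 h2
  · have h1 := red_unmerged G C hCs L hnd x hx hxf
    exact_mod_cast le_trans h1 (hN x)

lemma Nc_nonneg (C : Conf V) (L : List (V × V)) (z : V) : 0 ≤ Nc C L z := by
  obtain ⟨k, h, _⟩ := Nc_NW C L z
  rw [h]; positivity

lemma hasSeq_down (C : Conf V) (hCs : ∀ a b, C.s a b = sg G a b) (k : ℕ) :
    ∀ L : List (V × V), (vs L).Nodup → L.length ≤ k + 1 → (∀ L', L' <:+ L → Gdk G C k L') →
      HasSeq k (tri G L) → HasSeq k (tri G []) := by
  intro L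
  induction L with
  | nil => intro _ _ _ h; exact h
  | cons p L ih =>
    intro hnd hlen hg hseq
    have hnd' := hnd
    rw [vs_cons, List.nodup_cons, List.nodup_cons] at hnd'
    have hq1 : p.1 ∉ vs L := fun hh => hnd'.1 (List.mem_cons_of_mem _ hh)
    have hq2 : p.2 ∉ vs L := hnd'.2.1
    have hne : p.1 ≠ p.2 := fun hh => hnd'.1 (hh ▸ List.mem_cons_self)
    rw [mem_vs, not_or] at hq1 hq2
    rw [List.length_cons] at hlen
    have hg' : ∀ L', L' <:+ L → Gdk G C k L' := fun L' hL' => hg L' (hL'.trans (List.suffix_cons _ _))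
    refine ih hnd'.2.2 (by omega) hg' ?_
    refine HasSeq.step _ p.1 p.2 ((mem_tri G L _).2 hq1.2) ((mem_tri G L _).2 hq2.2) hne
      (red_all G C hCs L k hnd'.2.2 (hg' L (List.suffix_refl _)) fun z => ?_) hseq
    have : (L.length : ℝ) ≤ k := by exact_mod_cast (by omega : L.length ≤ k)
    linarith [Nc_nonneg C L z]

end graphs

end TWK551
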