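import Pool.Agent.H551.tk.U
open Finset
open TWC551 (EdgeCol Trigraph mergeCol HasSeq twinWidth PInv hasSeq_small redDeg_lt)
namespace TWK551
universe w

/-- the combinatorial conclusion for a given target -/
theorem seqThm (K : ℕ) (γ : ℝ) (hγ : 0 < γ) : ∃ n0 : ℕ, ∀ (V : Type w) [Fintype V] [DecidableEq V]
    (G : SimpleGraph V) [DecidableRel G.Adj]
    (h : ∀ x y : V, x ≠ y → |2 * (dif G x y : ℝ) - (nn V - 1)| ≤ 2 * K), n0 ≤ Fintype.card V →
    ∀ (L0 : List (V × V)) (P0 : Finset (V × V)) (k : ℕ), St (toConf G K h) L0 P0 → γ * (nn V)^2 ≤ P0.card →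
    (Fintype.card V ≤ 2 * k + 3) → (2 * k + 1 ≤ Fintype.card V) →
    (∀ p ∈ P0, 2 * (dif G p.1 p.2 : ℝ) ≤ nn V - 1) →
    ((L0 = [] ∧ ∀ p ∈ P0, dif G p.1 p.2 ≤ k) ∨ (∃ p1, L0 = [p1] ∧ dif G p1.1 p1.2 ≤ k)) →
    HasSeq k (Trigraph.ofGraph G) := by
  obtain ⟨n0, hn0⟩ := comb.{w} γ (2 * K + 3) hγ (by positivity) (K + 3)
  refine ⟨n0 + 10, ?_⟩
  intro V _ _ G _ h hV L0 P0 k hSt hP hk1 hk2 hP0 hcase
  set C := toConf G K h with hC
  have hCs : ∀ a b, C.s a b = sg G a b := fun _ _ => rfl
  have hlen : L0.length ≤ 1 := by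
    rcases hcase with ⟨h, _⟩ | ⟨p1, h, _⟩ <;> rw [h] <;> simp
  have hkR : nn V ≤ 2 * (k:ℝ) + 3 := by unfold nn; exact_mod_cast hk1
  have hSG : ∀ L, SG C (K + 3) L → Gdk G C k L := by
    intro L hL p hp
    have h1 := hL p hp
    push_cast at h1
    have h2 : (dif G p.1 p.2 : ℝ) ≤ (nn V - 1)/2 + K := by
      by_cases hpp : p.1 = p.2
      · have : dif G p.1 p.2 = 0 := by
          unfold dif
          rw [Finset.card_eq_zero, Finset.filter_eq_empty_iff]
          intro z _ hz
          rw [hpp] at hz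
          exact hz.2.2 Iff.rfl
        rw [this]
        have hn : (10:ℝ) ≤ nn V := by unfold nn; exact_mod_cast (by omega : 10 ≤ Fintype.card V)
        have : (0:ℝ) ≤ K := Nat.cast_nonneg _
        push_cast
        linarith
      · have := (abs_le.1 (h p.1 p.2 hpp)).2
        linarith
    rcases C.pm p.1 p.2 with e | e <;> rw [e] <;> linarith
  have hSp : ∀ M : List (V × V), (∀ p ∈ M, p ∈ P0) → ∀ L', L' <:+ M ++ L0 → SpGood C L' → Gdk G C k L' := by
    intro M hM L' hL' hgood p hp
    have h1 := hgood p hp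
    have hmem : p ∈ M ++ L0 := hL'.subset hp
    have hl1 : (1:ℝ) ≤ L'.length := by exact_mod_cast List.length_pos_of_mem hp
    rcases hcase with ⟨h0, hd⟩ | ⟨p1, h0, hd⟩
    · subst h0
      rw [List.append_nil] at hmem
      have : (dif G p.1 p.2 : ℝ) ≤ k := by exact_mod_cast hd p (hM p hmem)
      linarith
    · subst h0
      by_cases hl2 : 2 ≤ L'.length
      · have hl2' : (2:ℝ) ≤ L'.length := by exact_mod_cast hl2
        rcases List.mem_append.1 hmem with hm | hm
        · have := hP0 p (hM p hm)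
          linarith
        · have : p = p1 := by simpa using hm
          rw [this]
          rw [this] at h1
          have : (dif G p1.1 p1.2 : ℝ) ≤ k := by exact_mod_cast hd
          linarith
      · -- length one
        have hl : L'.length = 1 := by
          have := List.length_pos_of_mem hp; omega
        obtain ⟨q, hq⟩ := List.length_eq_one_iff.1 hl
        have : L' = [p1] := by
          have hs : [p1] <:+ M ++ [p1] := List.suffix_append _ _
          exact List.IsSuffix.eq_of_length (List.suffix_of_suffix_length_le hL' hs (by simp [hl])) (by simp [hl])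
        rw [this] at hp
        have : p = p1 := by simpa using hp
        rw [this]
        rw [this] at h1
        have : (dif G p1.1 p1.2 : ℝ) ≤ k := by exact_mod_cast hd
        linarith
  obtain ⟨L, hnd, hLlen, hg, hN⟩ := hn0 V C (le_refl _) (by omega) L0 P0 hlen hSt hP (Gdk G C k) hSG hSp
    (Fintype.card V / 2) (by omega) (by omega)
  have hLk : L.length ≤ k + 1 := by omega
  have hcard := card_tri G L hnd
  have hfin : HasSeq k (tri G L) := by
    refine hasSeq_small' k _ ?_ (red_all G C hCs L k hnd (hg L (List.suffix_refl _)) fun z => ?_) (by omega)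
    · rw [← Finset.card_pos]; omega
    · have h1 := hN z
      have h2 : (L.length : ℝ) ≤ k + 1 := by exact_mod_cast hLk
      linarith
  exact hasSeq_down G C hCs k L hnd hLk hg hfin

end TWK551
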