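import Pool.Agent.H551.tk.X
open Finset
open TWC551 (EdgeCol Trigraph mergeCol HasSeq twinWidth PInv hasSeq_small redDeg_lt)
namespace TWK551
universe w

section
variable {V : Type*} [Fintype V] [DecidableEq V] (G : SimpleGraph V) [DecidableRel G.Adj]

lemma deg_sum (x : V) : ∑ z, sg G x z = 2 * (G.degree x : ℝ) - nn V := by
  have e : ∀ z, sg G x z = 2 * (if G.Adj x z then (1:ℝ) else 0) - 1 := by
    intro z; unfold sg; split_ifs <;> norm_num
  rw [Finset.sum_congr rfl (fun z _ => e z), Finset.sum_sub_distrib, ← Finset.mul_sum, ← Finset.sum_filter]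
  simp only [Finset.sum_const, nsmul_eq_mul, mul_one, Finset.card_univ]
  rw [← SimpleGraph.card_neighborFinset_eq_degree, SimpleGraph.neighborFinset_eq_filter]

lemma cor_common (x y : V) : ∑ z, sg G z x * sg G z y =
    4 * (Fintype.card (G.commonNeighbors x y) : ℝ) - 2 * G.degree x - 2 * G.degree y + nn V := by
  classical
  have e : ∀ z, sg G z x * sg G z y = 4 * (if G.Adj x z ∧ G.Adj y z then (1:ℝ) else 0)
      - (1 + sg G x z) - (1 + sg G y z) + 1 := by
    intro z
    rw [sg_symm G z x, sg_symm G z y]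
    unfold sg
    by_cases h1 : G.Adj x z <;> by_cases h2 : G.Adj y z <;> simp [h1, h2] <;> norm_num
  have cn : ∑ z, (if G.Adj x z ∧ G.Adj y z then (1:ℝ) else 0) = (Fintype.card (G.commonNeighbors x y) : ℝ) := by
    rw [← Finset.sum_filter]
    simp only [Finset.sum_const, nsmul_eq_mul, mul_one]
    congr 1
    rw [← Set.toFinset_card]
    congr 1
    ext z
    simp [SimpleGraph.mem_commonNeighbors]
  rw [Finset.sum_congr rfl (fun z _ => e z)]
  simp only [Finset.sum_add_distrib, Finset.sum_sub_distrib, ← Finset.mul_sum, cn, deg_sum,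
    Finset.sum_const, Finset.card_univ, nsmul_eq_mul, mul_one]
  ring

lemma sum_t : ∑ x, ∑ y, (if x = y then 0 else nn V - 1 - 2 * (dif G x y : ℝ)) =
    ∑ z, (∑ x, sg G z x + 1)^2 := by
  have e : ∀ x y : V, (if x = y then 0 else nn V - 1 - 2 * (dif G x y : ℝ)) =
      (∑ z, sg G z x * sg G z y + 1 + 2 * sg G x y) - (if x = y then (nn V - 1) else 0) := by
    intro x y
    split_ifs with h
    · subst h
      have h1 : ∀ z, sg G z x * sg G z x = 1 := fun z => by
        rcases sg_pm G z x with h | h <;> rw [h] <;> norm_num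
      have h2 : sg G x x = -1 := by unfold sg; simp
      rw [h2, Finset.sum_congr rfl (fun z _ => h1 z)]
      simp only [Finset.sum_const, nsmul_eq_mul, mul_one, Finset.card_univ]
      ring
    · rw [sum_cor G h]; ring
  have e2 : ∑ x, ∑ y, ∑ z, sg G z x * sg G z y = ∑ z, (∑ x, sg G z x)^2 := by
    rw [Finset.sum_congr rfl (fun x _ => Finset.sum_comm), Finset.sum_comm]
    refine Finset.sum_congr rfl fun z _ => ?_
    rw [sq, Finset.sum_mul_sum]
  have e3 : ∑ x : V, ∑ y : V, (if x = y then (nn V - 1) else 0) = nn V * (nn V - 1) := by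
    simp [nn]; ring
  rw [Finset.sum_congr rfl (fun x _ => Finset.sum_congr rfl (fun y _ => e x y))]
  simp only [Finset.sum_sub_distrib, Finset.sum_add_distrib, e2, e3, ← Finset.mul_sum,
    Finset.sum_const, Finset.card_univ, nsmul_eq_mul, mul_one]
  have e4 : ∀ z, (∑ x, sg G z x + 1)^2 = (∑ x, sg G z x)^2 + 2 * (∑ x, sg G z x) + 1 := fun z => by ring
  rw [Finset.sum_congr rfl (fun z _ => e4 z)]
  simp only [Finset.sum_add_distrib, ← Finset.mul_sum, Finset.sum_const, Finset.card_univ, nsmul_eq_mul, mul_one]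
  ring

/-- conference graph -/
def IsConf : Prop := ∃ m : ℕ, 1 ≤ m ∧ G.IsSRGWith (4 * m + 1) (2 * m) (m - 1) m

lemma conf_dif {m : ℕ} (hm : 1 ≤ m) (h : G.IsSRGWith (4 * m + 1) (2 * m) (m - 1) m) {x y : V} (hxy : x ≠ y) :
    dif G x y = 2 * m := by
  have h1 := sum_cor G hxy
  rw [cor_common] at h1
  have d1 : (G.degree x : ℝ) = 2 * m := by have := h.regular x; rw [this]; push_cast; ring
  have d2 : (G.degree y : ℝ) = 2 * m := by have := h.regular y; rw [this]; push_cast; ring
  have hn : nn V = 4 * m + 1 := by unfold nn; rw [h.card]; push_cast; ring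
  rw [d1, d2, hn] at h1
  have : (dif G x y : ℝ) = ((2 * m : ℕ) : ℝ) := by
    by_cases hadj : G.Adj x y
    · rw [h.of_adj x y hadj, Nat.cast_sub hm] at h1
      have e : sg G x y = 1 := by unfold sg; rw [if_pos hadj]
      rw [e] at h1
      push_cast at h1 ⊢
      linarith
    · rw [h.of_not_adj hxy hadj] at h1
      have e : sg G x y = -1 := by unfold sg; rw [if_neg hadj]
      rw [e] at h1
      push_cast at h1 ⊢
      linarith
  exact_mod_cast this

lemma conf_of (hV : 5 ≤ Fintype.card V) (h : ∀ x y : V, x ≠ y → Fintype.card V ≤ 2 * dif G x y + 1) : IsConf G := by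
  classical
  have hle : ∀ x y : V, (if x = y then 0 else nn V - 1 - 2 * (dif G x y : ℝ)) ≤ 0 := by
    intro x y
    split_ifs with hxy
    · exact le_refl _
    · have := h x y hxy
      have : nn V ≤ 2 * (dif G x y : ℝ) + 1 := by unfold nn; exact_mod_cast this
      linarith
  have hs := sum_t G
  have h0 : ∑ x, ∑ y, (if x = y then 0 else nn V - 1 - 2 * (dif G x y : ℝ)) ≤ 0 :=
    Finset.sum_nonpos fun x _ => Finset.sum_nonpos fun y _ => hle x y
  have h1 : 0 ≤ ∑ z, (∑ x, sg G z x + 1)^2 := Finset.sum_nonneg fun z _ => sq_nonneg _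
  have h2 : ∑ z, (∑ x, sg G z x + 1)^2 = 0 := by linarith
  have hr : ∀ z, ∑ x, sg G z x = -1 := by
    intro z
    have := (Finset.sum_eq_zero_iff_of_nonneg (fun z _ => sq_nonneg (∑ x, sg G z x + 1))).1 h2 z (Finset.mem_univ z)
    have := pow_eq_zero_iff (two_ne_zero) |>.1 this
    linarith
  have h3 : ∑ x, ∑ y, (if x = y then 0 else nn V - 1 - 2 * (dif G x y : ℝ)) = 0 := by linarith
  have ht : ∀ x y : V, x ≠ y → nn V - 1 - 2 * (dif G x y : ℝ) = 0 := by
    intro x y hxy
    have a1 := (Finset.sum_eq_zero_iff_of_nonpos (fun x _ => Finset.sum_nonpos fun y _ => hle x y)).1 h3 x (Finset.mem_univ x)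
    have a2 := (Finset.sum_eq_zero_iff_of_nonpos (fun y _ => hle x y)).1 a1 y (Finset.mem_univ y)
    rw [if_neg hxy] at a2
    exact a2
  have hdeg : ∀ z, 2 * G.degree z + 1 = Fintype.card V := by
    intro z
    have a := deg_sum G z
    rw [hr z] at a
    have : (2 * (G.degree z : ℝ) + 1) = nn V := by linarith
    unfold nn at this
    exact_mod_cast this
  have hcom : ∀ x y : V, x ≠ y → 4 * (Fintype.card (G.commonNeighbors x y) : ℝ) = nn V - 3 - 2 * sg G x y := by
    intro x y hxy
    have a := cor_common G x y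
    rw [sum_cor G hxy] at a
    have b := ht x y hxy
    have d1 : 2 * (G.degree x : ℝ) + 1 = nn V := by unfold nn; exact_mod_cast hdeg x
    have d2 : 2 * (G.degree y : ℝ) + 1 = nn V := by unfold nn; exact_mod_cast hdeg y
    linarith
  have hadj : ∀ x y : V, G.Adj x y → 4 * Fintype.card (G.commonNeighbors x y) + 5 = Fintype.card V := by
    intro x y hxy
    have a := hcom x y hxy.ne
    have e : sg G x y = 1 := by unfold sg; rw [if_pos hxy]
    rw [e] at a
    have : 4 * (Fintype.card (G.commonNeighbors x y) : ℝ) + 5 = nn V := by linarith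
    unfold nn at this
    exact_mod_cast this
  have hnadj : ∀ x y : V, x ≠ y → ¬ G.Adj x y → 4 * Fintype.card (G.commonNeighbors x y) + 1 = Fintype.card V := by
    intro x y hne hxy
    have a := hcom x y hne
    have e : sg G x y = -1 := by unfold sg; rw [if_neg hxy]
    rw [e] at a
    have : 4 * (Fintype.card (G.commonNeighbors x y) : ℝ) + 1 = nn V := by linarith
    unfold nn at this
    exact_mod_cast this
  obtain ⟨x0, y0, hne0⟩ := Fintype.exists_pair_of_one_lt_card (by omega : 1 < Fintype.card V)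
  have hmod : ∃ m, Fintype.card V = 4 * m + 1 := by
    by_cases ha : G.Adj x0 y0
    · have := hadj x0 y0 ha
      exact ⟨Fintype.card (G.commonNeighbors x0 y0) + 1, by omega⟩
    · have := hnadj x0 y0 hne0 ha
      exact ⟨Fintype.card (G.commonNeighbors x0 y0), by omega⟩
  obtain ⟨m, hm⟩ := hmod
  refine ⟨m, by omega, ⟨hm, ?_, ?_, ?_⟩⟩
  · intro z
    have := hdeg z; omega
  · intro x y hxy
    have := hadj x y hxy; omega
  · intro x y hne hxy
    have := hnadj x y hne hxy; omega

lemma lower_dif (k : ℕ) (hV : 1 < Fintype.card V) (hk : HasSeq k (Trigraph.ofGraph G)) :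
    ∃ u v, u ≠ v ∧ dif G u v ≤ k := by
  classical
  cases hk with
  | last _ h1 _ =>
    have : (univ : Finset V).card = 1 := h1
    rw [Finset.card_univ] at this
    omega
  | step _ u v _ _ huv _ h2 =>
    refine ⟨u, v, huv, ?_⟩
    have hu : u ∈ ((Trigraph.ofGraph G).contract u v).verts := Finset.mem_erase.2 ⟨huv, Finset.mem_univ _⟩
    have hd : ((Trigraph.ofGraph G).contract u v).redDeg u ≤ k := by
      cases h2 with
      | last _ _ h3 => exact h3 u hu
      | step _ _ _ _ _ _ h3 _ => exact h3 u hu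
    refine le_trans ?_ hd
    unfold Trigraph.redDeg dif
    refine Finset.card_le_card fun z hz => ?_
    rw [Finset.mem_filter] at hz
    obtain ⟨_, hz2, hz3, hz1⟩ := hz
    rw [Finset.mem_filter]
    refine ⟨Finset.mem_erase.2 ⟨hz3, Finset.mem_univ _⟩, hz2, ?_⟩
    simp only [Trigraph.contract, if_true, Trigraph.ofGraph]
    by_cases b1 : G.Adj u z <;> by_cases b2 : G.Adj v z
    · exact absurd (iff_of_true b1 b2) hz1
    · simp [b1, b2, mergeCol]
    · simp [b1, b2, mergeCol]
    · exact absurd (iff_of_false b1 b2) hz1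

end

end TWK551
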