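import Pool.Agent.H551.tk.Y
open Finset
open TWC551 (EdgeCol Trigraph mergeCol HasSeq twinWidth PInv hasSeq_small redDeg_lt)
namespace TWK551
universe w

/-- the upper bound for conference graphs -/
lemma caseConf (K : ℕ) : ∃ n0 : ℕ, ∀ (V : Type w) [Fintype V] [DecidableEq V]
    (G : SimpleGraph V) [DecidableRel G.Adj],
    (∀ x y : V, x ≠ y → |2 * (dif G x y : ℝ) - (nn V - 1)| ≤ 2 * K) → n0 ≤ Fintype.card V →
    ∀ m : ℕ, 1 ≤ m → G.IsSRGWith (4 * m + 1) (2 * m) (m - 1) m → HasSeq (2 * m) (Trigraph.ofGraph G) := by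
  classical
  obtain ⟨n0, hn0⟩ := seqThm.{w} K (1/2) (by norm_num)
  refine ⟨n0, ?_⟩
  intro V _ _ G _ h hV m hm hS
  have hc := hS.card
  refine hn0 V G h hV [] (univ.filter (fun p : V × V => p.1 ≠ p.2)) (2 * m) ?_ ?_ (by omega) (by omega) ?_ ?_
  · refine ⟨by simp, fun p hp => by simp at hp, fun p hp => by simp at hp⟩
  · have e : (univ.filter (fun p : V × V => p.1 ≠ p.2)) = (univ : Finset V).offDiag := by
      ext p; simp
    rw [e, Finset.offDiag_card, Finset.card_univ]
    have h1 : Fintype.card V ≤ Fintype.card V * Fintype.card V := by nlinarith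
    rw [Nat.cast_sub h1]
    push_cast
    have : (5:ℝ) ≤ nn V := by unfold nn; exact_mod_cast (by omega : 5 ≤ Fintype.card V)
    unfold nn at *
    nlinarith
  · intro p hp
    rw [Finset.mem_filter] at hp
    rw [conf_dif G hm hS hp.2]
    unfold nn
    rw [hc]; push_cast; linarith
  · left
    refine ⟨rfl, fun p hp => ?_⟩
    rw [Finset.mem_filter] at hp
    rw [conf_dif G hm hS hp.2]

/-- the sequence for the graphs that are not conference graphs -/
lemma caseNon (K : ℕ) : ∃ n0 : ℕ, ∀ (V : Type w) [Fintype V] [DecidableEq V]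
    (G : SimpleGraph V) [DecidableRel G.Adj],
    (∀ x y : V, x ≠ y → |2 * (dif G x y : ℝ) - (nn V - 1)| ≤ 2 * K) → n0 ≤ Fintype.card V →
    ¬ IsConf G → HasSeq ((Fintype.card V - 2) / 2) (Trigraph.ofGraph G) := by
  classical
  set ν : ℝ := 1 / (256 * ((K:ℝ) + 1)) with hν
  have hK0 : (0:ℝ) ≤ K := Nat.cast_nonneg _
  have hνpos : 0 < ν := by positivity
  have hνK : 2 * (K:ℝ) * ν ≤ 1/128 := by
    rw [hν, mul_one_div, div_le_iff₀ (by positivity)]
    linarith
  have hν1 : ν ≤ 1/128 := by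
    rw [hν, div_le_iff₀ (by positivity)]
    linarith
  obtain ⟨n0, hn0⟩ := seqThm.{w} K ν hνpos
  refine ⟨n0 + 8 * K + 12, ?_⟩
  intro V _ _ G _ h hV hnc
  have hn12 : 8 * (K:ℝ) + 12 ≤ nn V := by
    unfold nn
    exact_mod_cast (by omega : 8 * K + 12 ≤ Fintype.card V)
  set Pos : Finset (V × V) := univ.filter (fun p : V × V => p.1 ≠ p.2 ∧ 2 * dif G p.1 p.2 + 1 < Fintype.card V) with hPos
  have hPosd : ∀ p ∈ Pos, dif G p.1 p.2 ≤ (Fintype.card V - 2) / 2 := by
    intro p hp
    rw [hPos, Finset.mem_filter] at hp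
    omega
  by_cases hbig : ν * (nn V)^2 ≤ (Pos.card : ℝ)
  · refine hn0 V G h (by omega) [] Pos _ ?_ hbig (by omega) (by omega) ?_ ?_
    · refine ⟨by simp, fun p hp => by simp at hp, fun p hp => by simp at hp⟩
    · intro p hp
      rw [hPos, Finset.mem_filter] at hp
      have : 2 * dif G p.1 p.2 + 1 ≤ Fintype.card V := by omega
      have : 2 * (dif G p.1 p.2 : ℝ) + 1 ≤ nn V := by unfold nn; exact_mod_cast this
      linarith
    · left
      exact ⟨rfl, hPosd⟩
  · push Not at hbig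
    obtain ⟨x1, y1, hxy1, hd1⟩ : ∃ x y : V, x ≠ y ∧ 2 * dif G x y + 1 < Fintype.card V := by
      by_contra hcon
      push Not at hcon
      exact hnc (conf_of G (by omega) hcon)
    set Neg : Finset (V × V) := univ.filter (fun p : V × V => p.1 ≠ p.2 ∧ Fintype.card V < 2 * dif G p.1 p.2 + 1) with hNeg
    -- pointwise bound
    have hpt : ∀ x y : V, (if x = y then 0 else nn V - 1 - 2 * (dif G x y : ℝ)) ≤
        2 * (K:ℝ) * (if (x, y) ∈ Pos then 1 else 0) - (if (x, y) ∈ Neg then 1 else 0) := by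
      intro x y
      have mP : (x, y) ∈ Pos ↔ (x ≠ y ∧ 2 * dif G x y + 1 < Fintype.card V) := by
        rw [hPos, Finset.mem_filter]; simp
      have mN : (x, y) ∈ Neg ↔ (x ≠ y ∧ Fintype.card V < 2 * dif G x y + 1) := by
        rw [hNeg, Finset.mem_filter]; simp
      by_cases hxy : x = y
      · have h1 : (x, y) ∉ Pos := fun hh => (mP.1 hh).1 hxy
        have h2 : (x, y) ∉ Neg := fun hh => (mN.1 hh).1 hxy
        rw [if_pos hxy, if_neg h1, if_neg h2]; linarith
      · rw [if_neg hxy]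
        have hb := abs_le.1 (h x y hxy)
        rcases lt_trichotomy (2 * dif G x y + 1) (Fintype.card V) with hl | he | hg
        · have h1 : (x, y) ∈ Pos := mP.2 ⟨hxy, hl⟩
          have h2 : (x, y) ∉ Neg := fun hh => by have := (mN.1 hh).2; omega
          rw [if_pos h1, if_neg h2]; linarith [hb.1]
        · have h1 : (x, y) ∉ Pos := fun hh => by have := (mP.1 hh).2; omega
          have h2 : (x, y) ∉ Neg := fun hh => by have := (mN.1 hh).2; omega
          rw [if_neg h1, if_neg h2]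
          have : 2 * (dif G x y : ℝ) + 1 = nn V := by unfold nn; exact_mod_cast he
          linarith
        · have h1 : (x, y) ∉ Pos := fun hh => by have := (mP.1 hh).2; omega
          have h2 : (x, y) ∈ Neg := mN.2 ⟨hxy, hg⟩
          rw [if_neg h1, if_pos h2]
          have : nn V + 1 ≤ 2 * (dif G x y : ℝ) + 1 := by
            unfold nn
            exact_mod_cast (by omega : Fintype.card V + 1 ≤ 2 * dif G x y + 1)
          linarith
    have hcount : ∀ P : Finset (V × V), ∑ x : V, ∑ y : V, (if (x, y) ∈ P then (1:ℝ) else 0) = P.card := by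
      intro P
      rw [← Finset.sum_product']
      simp
    have hsum : ∑ z, (∑ x, sg G z x + 1)^2 ≤ 2 * (K:ℝ) * Pos.card - Neg.card := by
      rw [← sum_t G, ← hcount Pos, ← hcount Neg]
      refine le_trans (Finset.sum_le_sum fun x _ => Finset.sum_le_sum fun y _ => hpt x y) ?_
      simp only [Finset.sum_sub_distrib, ← Finset.mul_sum]
      exact le_refl _
    have hKP : 2 * (K:ℝ) * Pos.card ≤ (nn V)^2 / 128 := by
      have a1 : 2 * (K:ℝ) * Pos.card ≤ 2 * (K:ℝ) * (ν * (nn V)^2) :=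
        mul_le_mul_of_nonneg_left hbig.le (by positivity)
      have a2 : 2 * (K:ℝ) * ν * (nn V)^2 ≤ 1/128 * (nn V)^2 :=
        mul_le_mul_of_nonneg_right hνK (by positivity)
      linarith
    have hNegc : (Neg.card : ℝ) ≤ (nn V)^2 / 128 := by
      have : 0 ≤ ∑ z, (∑ x, sg G z x + 1)^2 := Finset.sum_nonneg fun z _ => sq_nonneg _
      linarith
    have hr : ∀ z, |∑ x, sg G z x + 1| ≤ nn V / 8 := by
      intro z
      have a1 : (∑ x, sg G z x + 1)^2 ≤ ∑ z, (∑ x, sg G z x + 1)^2 :=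
        Finset.single_le_sum (f := fun z => (∑ x, sg G z x + 1)^2) (fun z _ => sq_nonneg _) (Finset.mem_univ z)
      have a2 : (0:ℝ) ≤ Neg.card := Nat.cast_nonneg _
      have a3 : (∑ x, sg G z x + 1)^2 ≤ (nn V / 8)^2 := by
        have e8 : (nn V / 8)^2 = (nn V)^2 / 64 := by ring
        rw [e8]
        have := sq_nonneg (nn V)
        linarith
      have a4 : 0 ≤ nn V / 8 := by linarith
      exact abs_le_of_sq_le_sq a3 a4
    set A : Finset V := univ.filter (fun u => sg G x1 u = 1 ∧ sg G y1 u = -1) with hA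
    set B : Finset V := univ.filter (fun u => sg G x1 u = -1 ∧ sg G y1 u = 1) with hB
    have hc := sum_cor G hxy1
    have hcle : ∑ z, sg G z x1 * sg G z y1 ≤ 2 * K + 3 := (toConf G K h).cor_le x1 y1 hxy1
    have hAc : (A.card : ℝ) = (nn V + ∑ u, sg G x1 u - ∑ u, sg G y1 u - ∑ z, sg G z x1 * sg G z y1) / 4 := by
      have e : ∀ u, (if sg G x1 u = 1 ∧ sg G y1 u = -1 then (1:ℝ) else 0) =
          (1 + sg G x1 u - sg G y1 u - sg G u x1 * sg G u y1)/4 := by
        intro u
        rw [sg_symm G u x1, sg_symm G u y1]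
        rcases sg_pm G x1 u with e1 | e1 <;> rcases sg_pm G y1 u with e2 | e2 <;> rw [e1, e2] <;> norm_num
      have : (A.card : ℝ) = ∑ u, (if sg G x1 u = 1 ∧ sg G y1 u = -1 then (1:ℝ) else 0) := by
        rw [← Finset.sum_filter]; simp [hA]
      rw [this, Finset.sum_congr rfl (fun u _ => e u), ← Finset.sum_div]
      simp only [Finset.sum_sub_distrib, Finset.sum_add_distrib, Finset.sum_const, Finset.card_univ,
        nsmul_eq_mul, mul_one]
    have hBc : (B.card : ℝ) = (nn V - ∑ u, sg G x1 u + ∑ u, sg G y1 u - ∑ z, sg G z x1 * sg G z y1) / 4 := by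
      have e : ∀ u, (if sg G x1 u = -1 ∧ sg G y1 u = 1 then (1:ℝ) else 0) =
          (1 - sg G x1 u + sg G y1 u - sg G u x1 * sg G u y1)/4 := by
        intro u
        rw [sg_symm G u x1, sg_symm G u y1]
        rcases sg_pm G x1 u with e1 | e1 <;> rcases sg_pm G y1 u with e2 | e2 <;> rw [e1, e2] <;> norm_num
      have : (B.card : ℝ) = ∑ u, (if sg G x1 u = -1 ∧ sg G y1 u = 1 then (1:ℝ) else 0) := by
        rw [← Finset.sum_filter]; simp [hB]
      rw [this, Finset.sum_congr rfl (fun u _ => e u), ← Finset.sum_div]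
      simp only [Finset.sum_sub_distrib, Finset.sum_add_distrib, Finset.sum_const, Finset.card_univ,
        nsmul_eq_mul, mul_one]
    have hx := abs_le.1 (hr x1)
    have hy := abs_le.1 (hr y1)
    have hA8 : nn V / 8 ≤ A.card := by rw [hAc]; linarith [hx.1, hy.2]
    have hB8 : nn V / 8 ≤ B.card := by rw [hBc]; linarith [hx.2, hy.1]
    have hAB : (nn V)^2 / 64 ≤ (A.card : ℝ) * B.card := by
      have : nn V / 8 * (nn V / 8) ≤ (A.card : ℝ) * B.card :=
        mul_le_mul hA8 hB8 (by linarith) (Nat.cast_nonneg _)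
      nlinarith
    have hP0c : ν * (nn V)^2 ≤ (((A ×ˢ B) \ Neg).card : ℝ) := by
      have h1 : (A ×ˢ B).card ≤ ((A ×ˢ B) \ Neg).card + Neg.card := by
        have := Finset.le_card_sdiff Neg (A ×ˢ B)
        omega
      rw [Finset.card_product] at h1
      have h2 : (A.card : ℝ) * B.card ≤ (((A ×ˢ B) \ Neg).card : ℝ) + Neg.card := by exact_mod_cast h1
      have h3 : ν * (nn V)^2 ≤ 1/128 * (nn V)^2 := mul_le_mul_of_nonneg_right hν1 (by positivity)
      linarith
    have hmem : ∀ q ∈ (A ×ˢ B) \ Neg, (sg G x1 q.1 = 1 ∧ sg G y1 q.1 = -1) ∧ (sg G x1 q.2 = -1 ∧ sg G y1 q.2 = 1) ∧ q ∉ Neg := by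
      intro q hq
      rw [Finset.mem_sdiff, Finset.mem_product, hA, hB, Finset.mem_filter, Finset.mem_filter] at hq
      exact ⟨hq.1.1.2, hq.1.2.2, hq.2⟩
    refine hn0 V G h (by omega) [(x1, y1)] ((A ×ˢ B) \ Neg) _ ?_ hP0c (by omega) (by omega) ?_ ?_
    · have hSt0 : St (toConf G K h) [] {(x1, y1)} :=
        ⟨by simp, fun p hp => by simp at hp, fun p hp => by simp at hp⟩
      refine ⟨by simp [hxy1], ?_, spgood_cons hSt0 (Finset.mem_singleton_self _)⟩
      intro p hp q hq
      have : p = (x1, y1) := by simpa using hp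
      subst this
      obtain ⟨a, b, _⟩ := hmem q hq
      exact ⟨a.1, b.1, a.2, b.2⟩
    · intro q hq
      obtain ⟨a, b, c⟩ := hmem q hq
      have hne : q.1 ≠ q.2 := by
        intro he
        rw [← he] at b
        have := a.1.symm.trans b.1
        norm_num at this
      rw [hNeg, Finset.mem_filter] at c
      have : 2 * dif G q.1 q.2 + 1 ≤ Fintype.card V := by
        by_contra hcon
        exact c ⟨Finset.mem_univ _, hne, by omega⟩
      have : 2 * (dif G q.1 q.2 : ℝ) + 1 ≤ nn V := by unfold nn; exact_mod_cast this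
      linarith
    · right
      exact ⟨(x1, y1), rfl, by simp only; omega⟩

/-- Q1 for all large graphs with all `|dif x y - (n-1)/2| ≤ K` -/
theorem mainNear (K : ℕ) : ∃ n0 : ℕ, ∀ (V : Type w) [Fintype V] [DecidableEq V]
    (G : SimpleGraph V) [DecidableRel G.Adj], n0 ≤ Fintype.card V →
    (∀ x y : V, x ≠ y → |2 * (dif G x y : ℝ) - ((Fintype.card V : ℝ) - 1)| ≤ 2 * K) →
    2 * twinWidth G + 1 ≤ Fintype.card V ∧ (2 * twinWidth G + 1 = Fintype.card V ↔ IsConf G) := by
  obtain ⟨n1, h1⟩ := caseConf.{w} K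
  obtain ⟨n2, h2⟩ := caseNon.{w} K
  refine ⟨n1 + n2 + 5, ?_⟩
  intro V _ _ G _ hV h
  by_cases hc : IsConf G
  · obtain ⟨m, hm, hS⟩ := hc
    have hcard := hS.card
    have hseq := h1 V G h (by omega) m hm hS
    have hle : twinWidth G ≤ 2 * m := Nat.sInf_le hseq
    have hge : 2 * m ≤ twinWidth G := by
      have hmem : twinWidth G ∈ {k | HasSeq k (Trigraph.ofGraph G)} := Nat.sInf_mem ⟨_, hseq⟩
      obtain ⟨u, v, huv, hd⟩ := lower_dif G _ (by omega) hmem
      rw [conf_dif G hm hS huv] at hd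
      exact hd
    exact ⟨by omega, fun _ => ⟨m, hm, hS⟩, fun _ => by omega⟩
  · have hseq := h2 V G h (by omega) hc
    have hle : twinWidth G ≤ (Fintype.card V - 2) / 2 := Nat.sInf_le hseq
    exact ⟨by omega, fun he => by omega, fun hh => absurd hh hc⟩

end TWK551
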